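import Pool.Agent.Q179.DV.Lev
import Pool.Agent.W36.GK.K14
import Pool.Agent.W36.GK.K19
import Pool.Agent.W36.GU.GU13

/-! Graded families of events: Gowers norms, windows of the normal law, values of linear forms. -/

set_option autoImplicit false

namespace Pool.Agent.Q179.DV

open Finset Filter Topology
open Pool.Agent.H499R2.ND (Dn cnt cnt_eq cnt_mono cnt_small cnt_le Phi Phi_mono Phi_continuous)
open Pool.Agent.H499R2.CO (Tz)
open Pool.Agent.W41 (ind ind_nonneg ind_le_one)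
open Pool.Agent.W41.FU (bal EE ee abel ee_diff ee_norm EE_triv EE_abs EE_res res SameT fourier)
open Pool.Agent.W36.GU (Hyp Dil win psi psi_int pow_ne win_abs win_sup Sup)
open Pool.Agent.W36.GK (Sm GN_all Indep forms_count Cn Cn_eq box dot)
open Pool.Agent.W36.GV (GN B1)

theorem c_mem {δ : ℝ} (h0 : 0 ≤ δ) (h1 : δ ≤ 1) {m : ℕ} (hm : 1 ≤ m) (x : ℝ) : 0 ≤ δ * Phi x / m ∧ δ * Phi x / m ≤ 1 := by
  have h2 := Phi_nonneg x
  have h3 := Phi_le_one x
  have hm1 : (1 : ℝ) ≤ m := by exact_mod_cast hm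
  constructor
  · positivity
  · rw [div_le_one (by linarith)]
    nlinarith

/-- one function whose Fourier coefficients are small has small Fourier coefficients on windows -/
theorem fou_win {f : ℤ → ℝ} (hf1 : ∀ n, |f n| ≤ 1) (hF : ∀ ε : ℝ, 0 < ε → ε ≤ 1 → ∃ N0 : ℕ, 1 ≤ N0 ∧
    ∀ N : ℕ, N0 ≤ N → ∀ α : ℝ, ‖EE f N α‖ ≤ ε * N) {κ : ℝ} (hκ : 0 < κ) : ∃ X0 : ℕ, ∀ X : ℕ, X0 ≤ X → ∀ M N : ℕ, M ≤ N → N ≤ X →
    ∀ (p : ℕ) [NeZero p] (ζ : ZMod p), ‖∑ n ∈ Icc (1 : ℤ) X, (win M N f n : ℂ) * psi p (ζ * n)‖ ≤ κ * X := by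
  obtain ⟨ε, hε⟩ : ∃ ε, ε = min κ 1 := ⟨_, rfl⟩
  have hε0 : 0 < ε := by rw [hε]; exact lt_min hκ one_pos
  have hε1 : ε ≤ 1 := by rw [hε]; exact min_le_right _ _
  have hεκ : ε ≤ κ := by rw [hε]; exact min_le_left _ _
  obtain ⟨n0, hn0, h⟩ := hF (ε / 2) (by positivity) (by linarith)
  obtain ⟨n1, hn1⟩ := exists_nat_ge (2 * n0 / ε)
  refine ⟨n0 + n1, fun X hX M N hMN hN p hp ζ => ?_⟩
  have hb : ∀ n : ℕ, n ≤ X → ∀ α : ℝ, ‖EE f n α‖ ≤ ε / 2 * X := by
    intro n hn α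
    rcases le_or_gt n0 n with h1 | h1
    · refine (h n h1 α).trans ?_
      have : (n : ℝ) ≤ X := by exact_mod_cast hn
      exact mul_le_mul_of_nonneg_left this (by positivity)
    · refine (EE_triv hf1 n α).trans ?_
      have h2 : 2 * n0 / ε ≤ X := hn1.trans (by exact_mod_cast (by omega : n1 ≤ X))
      rw [div_le_iff₀ hε0] at h2
      have h3 : (n : ℝ) ≤ n0 := by exact_mod_cast h1.le
      linarith
  have e1 : ∑ n ∈ Icc (1 : ℤ) X, (win M N f n : ℂ) * psi p (ζ * n) = EE (res M N f) X ((ζ.val : ℝ) / p) := by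
    rw [sum_cast]
    unfold EE
    apply sum_congr rfl
    intro n _
    have e2 : psi p (ζ * ((n : ℕ) : ℤ)) = ee ((ζ.val : ℝ) / p) (n : ℕ) := by
      have e3 : ζ * (((n : ℕ) : ℤ) : ZMod p) = (((ζ.val : ℤ) * (n : ℕ) : ℤ) : ZMod p) := by
        push_cast
        rw [ZMod.natCast_zmod_val]
      rw [e3, psi_int]
      unfold ee
      congr 1
      push_cast
      ring
    rw [e2]
    rfl
  rw [e1, EE_res _ hMN hN]
  refine (norm_sub_le _ _).trans ?_
  have h3 := hb N hN ((ζ.val : ℝ) / p)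
  have h4 := hb M (hMN.trans hN) ((ζ.val : ℝ) / p)
  have h5 : ε * X ≤ κ * X := mul_le_mul_of_nonneg_right hεκ (Nat.cast_nonneg _)
  linarith

/-- differences -/
theorem hyp_sub {f g h : ℤ → ℝ} {A B : ℕ} (H1 : Hyp {f} A B) (H2 : Hyp {g} A B) (e : ∀ n, h n = f n - g n)
    (habs : ∀ n, |h n| ≤ 1) : Hyp {h} A B where
  abs := by
    intro k hk n
    rw [Set.mem_singleton_iff] at hk
    rw [hk]; exact habs n
  loc := by
    intro κ hκ j
    obtain ⟨X1, h1⟩ := H1.loc (κ / 2) (by positivity) j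
    obtain ⟨X2, h2⟩ := H2.loc (κ / 2) (by positivity) j
    refine ⟨X1 + X2, ?_⟩
    intro X hX k hk
    rw [Set.mem_singleton_iff] at hk
    rw [hk]
    have a1 := h1 X (by omega) f rfl
    have a2 := h2 X (by omega) g rfl
    have a3 : ∑ n ∈ Icc (1 : ℤ) X, |h (n + j) - h n| ≤
        ∑ n ∈ Icc (1 : ℤ) X, |f (n + j) - f n| + ∑ n ∈ Icc (1 : ℤ) X, |g (n + j) - g n| := by
      rw [← sum_add_distrib]
      apply sum_le_sum
      intro n _
      rw [e, e]
      have := abs_sub (f (n + j) - f n) (g (n + j) - g n)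
      have e3 : f (n + j) - g (n + j) - (f n - g n) = (f (n + j) - f n) - (g (n + j) - g n) := by ring
      rw [e3]; exact this
    linarith
  dilA := by
    intro κ hκ
    obtain ⟨X1, h1⟩ := H1.dilA (κ / 2) (by positivity)
    obtain ⟨X2, h2⟩ := H2.dilA (κ / 2) (by positivity)
    refine ⟨X1 + X2, ?_⟩
    intro X hX k hk
    rw [Set.mem_singleton_iff] at hk
    rw [hk]
    have a1 := h1 X (by omega) f rfl
    have a2 := h2 X (by omega) g rfl
    have a3 : ∑ n ∈ Icc (1 : ℤ) X, |h (A * n) - h n| ≤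
        ∑ n ∈ Icc (1 : ℤ) X, |f (A * n) - f n| + ∑ n ∈ Icc (1 : ℤ) X, |g (A * n) - g n| := by
      rw [← sum_add_distrib]
      apply sum_le_sum
      intro n _
      rw [e, e]
      have := abs_sub (f (A * n) - f n) (g (A * n) - g n)
      have e3 : f (A * n) - g (A * n) - (f n - g n) = (f (A * n) - f n) - (g (A * n) - g n) := by ring
      rw [e3]; exact this
    linarith
  dilB := by
    intro κ hκ
    obtain ⟨X1, h1⟩ := H1.dilB (κ / 2) (by positivity)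
    obtain ⟨X2, h2⟩ := H2.dilB (κ / 2) (by positivity)
    refine ⟨X1 + X2, ?_⟩
    intro X hX k hk
    rw [Set.mem_singleton_iff] at hk
    rw [hk]
    have a1 := h1 X (by omega) f rfl
    have a2 := h2 X (by omega) g rfl
    have a3 : ∑ n ∈ Icc (1 : ℤ) X, |h (B * n) - h n| ≤
        ∑ n ∈ Icc (1 : ℤ) X, |f (B * n) - f n| + ∑ n ∈ Icc (1 : ℤ) X, |g (B * n) - g n| := by
      rw [← sum_add_distrib]
      apply sum_le_sum
      intro n _
      rw [e, e]
      have := abs_sub (f (B * n) - f n) (g (B * n) - g n)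
      have e3 : f (B * n) - g (B * n) - (f n - g n) = (f (B * n) - f n) - (g (B * n) - g n) := by ring
      rw [e3]; exact this
    linarith
  two_leA := H1.two_leA
  two_leB := H1.two_leB
  ind := H1.ind
  fou := by
    intro κ hκ
    obtain ⟨X1, h1⟩ := H1.fou (κ / 2) (by positivity)
    obtain ⟨X2, h2⟩ := H2.fou (κ / 2) (by positivity)
    refine ⟨X1 + X2, ?_⟩
    intro X hX k hk M N hMN hN p hp ζ
    rw [Set.mem_singleton_iff] at hk
    rw [hk]
    have a1 := h1 X (by omega) f rfl M N hMN hN p ζ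
    have a2 := h2 X (by omega) g rfl M N hMN hN p ζ
    have a3 : ∑ n ∈ Icc (1 : ℤ) X, (win M N h n : ℂ) * psi p (ζ * n) =
        ∑ n ∈ Icc (1 : ℤ) X, (win M N f n : ℂ) * psi p (ζ * n) - ∑ n ∈ Icc (1 : ℤ) X, (win M N g n : ℂ) * psi p (ζ * n) := by
      rw [← sum_sub_distrib]
      apply sum_congr rfl
      intro n _
      have : win M N h n = win M N f n - win M N g n := by
        unfold win
        split_ifs
        · exact e n
        · ring
      rw [this]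
      push_cast
      ring
    rw [a3]
    refine (norm_sub_le _ _).trans ?_
    linarith

namespace GF

variable {s : ℤ} {m : ℕ} {G : GF s m} {δ : ℝ}

theorem hyp_LS (hs : s = 1 ∨ s = -1) (h0 : 0 ≤ δ) (h1 : δ ≤ 1) (hm : 1 ≤ m) (hlaw : G.Law δ) (a : ℤ) (x : ℝ) :
    Hyp {bal s (G.LS a x) (δ * Phi x / m)} (2 ^ m) 3 where
  abs := by
    rintro _ rfl n
    exact bal_abs' s _ (c_mem h0 h1 hm _).1 (c_mem h0 h1 hm _).2 n
  loc := by
    intro κ hκ j
    obtain ⟨X0, h⟩ := loc_X hs hlaw a x (c_mem h0 h1 hm x).1 (c_mem h0 h1 hm x).2 hκ j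
    refine ⟨X0, ?_⟩
    rintro X hX _ rfl
    exact h X hX
  dilA := by
    intro κ hκ
    obtain ⟨X0, h⟩ := dil2_X hs hlaw a x (δ * Phi x / m) hκ
    refine ⟨X0, ?_⟩
    rintro X hX _ rfl
    exact h X hX
  dilB := by
    intro κ hκ
    obtain ⟨X0, h⟩ := dil3_X hs hlaw a x (c_mem h0 h1 hm x).1 (c_mem h0 h1 hm x).2 hκ
    refine ⟨X0, ?_⟩
    rintro X hX _ rfl
    exact h X hX
  two_leA := by
    calc 2 = 2 ^ 1 := by norm_num
      _ ≤ 2 ^ m := Nat.pow_le_pow_right (by norm_num) hm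
  two_leB := by norm_num
  ind := by
    intro k j hk hj
    rw [← pow_mul]
    exact pow_ne (m * k) j (Nat.mul_pos hm hk) hj
  fou := by
    intro κ hκ
    obtain ⟨X0, h⟩ := fou_win (f := bal s (G.LS a x) (δ * Phi x / m))
      (fun n => bal_abs' s _ (c_mem h0 h1 hm x).1 (c_mem h0 h1 hm x).2 n)
      (fun ε hε hε1 => fou_all hs hlaw a x (c_mem h0 h1 hm x).1 (c_mem h0 h1 hm x).2 hε hε1) hκ
    refine ⟨X0, ?_⟩
    rintro X hX _ rfl M N hMN hN p hp ζ
    exact h X hX M N hMN hN p ζ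

variable (G)

/-- the windows of the normal law -/
def WS (a : ℤ) (y x : ℝ) : Set ℤ := G.LS a x \ G.LS a y

variable {G}

theorem LS_mono {a : ℤ} {y x : ℝ} (h : y ≤ x) : G.LS a y ⊆ G.LS a x := by
  rintro z ⟨h1, h2⟩
  exact ⟨h1, G.mono _ _ _ _ (bd_mono h _) h2⟩

theorem bal_WS {a : ℤ} {y x : ℝ} (h : y ≤ x) (n : ℤ) : bal s (G.WS a y x) (δ * (Phi x - Phi y) / m) n =
    bal s (G.LS a x) (δ * Phi x / m) n - bal s (G.LS a y) (δ * Phi y / m) n := by
  have hsub := LS_mono (G := G) (a := a) h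
  unfold bal ind WS
  by_cases h1 : s * n ∈ G.LS a y
  · have h2 := hsub h1
    simp only [Set.mem_sdiff, h1, h2, not_true_eq_false, and_false, if_false, if_true]
    ring
  · by_cases h2 : s * n ∈ G.LS a x
    · simp only [Set.mem_sdiff, h1, h2, not_false_eq_true, and_true, if_false, if_true]
      ring
    · simp only [Set.mem_sdiff, h1, h2, false_and, if_false]
      ring

theorem w_mem (h0 : 0 ≤ δ) (h1 : δ ≤ 1) (hm : 1 ≤ m) {y x : ℝ} (h : y ≤ x) :
    0 ≤ δ * (Phi x - Phi y) / m ∧ δ * (Phi x - Phi y) / m ≤ 1 := by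
  have h2 := Phi_nonneg y
  have h3 := Phi_le_one x
  have h4 := Phi_mono h
  have hm1 : (1 : ℝ) ≤ m := by exact_mod_cast hm
  constructor
  · apply div_nonneg (mul_nonneg h0 (by linarith)) (by linarith)
  · rw [div_le_one (by linarith)]
    nlinarith

theorem hyp_WS (hs : s = 1 ∨ s = -1) (h0 : 0 ≤ δ) (h1 : δ ≤ 1) (hm : 1 ≤ m) (hlaw : G.Law δ) (a : ℤ) {y x : ℝ} (h : y ≤ x) :
    Hyp {bal s (G.WS a y x) (δ * (Phi x - Phi y) / m)} (2 ^ m) 3 :=
  hyp_sub (hyp_LS hs h0 h1 hm hlaw a x) (hyp_LS hs h0 h1 hm hlaw a y) (bal_WS h)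
    fun n => bal_abs' s _ (w_mem h0 h1 hm h).1 (w_mem h0 h1 hm h).2 n

/-- Fourier coefficients of windows -/
theorem fou_WS (hs : s = 1 ∨ s = -1) (h0 : 0 ≤ δ) (h1 : δ ≤ 1) (hm : 1 ≤ m) (hlaw : G.Law δ) (a : ℤ) {y x : ℝ} (h : y ≤ x)
    {ε : ℝ} (hε : 0 < ε) : ∃ N0 : ℕ, 1 ≤ N0 ∧
    ∀ N : ℕ, N0 ≤ N → ∀ α : ℝ, ‖EE (bal s (G.WS a y x) (δ * (Phi x - Phi y) / m)) N α‖ ≤ ε * N := by
  obtain ⟨e, he⟩ : ∃ e, e = min (ε / 2) 1 := ⟨_, rfl⟩
  have he0 : 0 < e := by rw [he]; exact lt_min (by positivity) one_pos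
  have he1 : e ≤ 1 := by rw [he]; exact min_le_right _ _
  have he2 : e ≤ ε / 2 := by rw [he]; exact min_le_left _ _
  obtain ⟨N1, hN1, h2⟩ := fou_all hs hlaw a x (c_mem h0 h1 hm x).1 (c_mem h0 h1 hm x).2 he0 he1
  obtain ⟨N2, hN2, h3⟩ := fou_all hs hlaw a y (c_mem h0 h1 hm y).1 (c_mem h0 h1 hm y).2 he0 he1
  refine ⟨N1 + N2, by omega, fun N hN α => ?_⟩
  have h4 := h2 N (by omega) α
  have h5 := h3 N (by omega) α
  have e1 : EE (bal s (G.WS a y x) (δ * (Phi x - Phi y) / m)) N α =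
      EE (bal s (G.LS a x) (δ * Phi x / m)) N α - EE (bal s (G.LS a y) (δ * Phi y / m)) N α := by
    unfold EE
    rw [← sum_sub_distrib]
    apply sum_congr rfl
    intro n _
    rw [bal_WS h]
    push_cast
    ring
  rw [e1]
  refine (norm_sub_le _ _).trans ?_
  have hN0 : (0 : ℝ) ≤ N := Nat.cast_nonneg _
  nlinarith

end GF

/-- counting points at which linear forms have values in given sets whose balanced functions have small
Gowers norms -/
theorem countG {D r : ℕ} {s : Fin r → ℤ} (hs : ∀ i, s i = 1 ∨ s i = -1) (Λ : Fin r → Fin D → ℤ) (h0 : ∀ i, Λ i ≠ 0)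
    (hΛ : ∀ i j, i ≠ j → Indep (Λ i) (Λ j)) (S : Fin r → Set ℤ) (δ : Fin r → ℝ) (hd : ∀ i, 0 ≤ δ i ∧ δ i ≤ 1)
    (hsm : ∀ i, Sm (r + 1) {bal (s i) (S i) (δ i)}) {ε : ℝ} (hε : 0 < ε) :
    ∃ X0 : ℕ, ∀ X : ℕ, X0 ≤ X →
      ∀ c : Fin r → ℤ, ∀ M N : Fin r → ℕ, (∀ i, M i ≤ N i) → (∀ i, N i ≤ X) → ∀ P P' : Fin D → ℤ, (∀ j, P' j - P j ≤ X) →
      |(Cn Λ c s M N P P' S : ℝ) - (∏ i, δ i) * Cn Λ c s M N P P' (fun _ => Set.univ)| ≤ ε * (X : ℝ) ^ D := by
  classical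
  set Λ' : Fin r → Fin D → ℤ := fun i j => s i * Λ i j with hΛ'
  have hs0 : ∀ i, s i ≠ 0 := fun i => by rcases hs i with h | h <;> rw [h] <;> norm_num
  obtain ⟨η, hη, X1, h⟩ := forms_count Λ' (by
    intro i h1
    apply h0 i
    ext j
    have := congrFun h1 j
    simp only [hΛ', Pi.zero_apply] at this
    simp only [Pi.zero_apply]
    exact (mul_eq_zero.1 this).resolve_left (hs0 i)) (by
    intro i j hij a b hab
    have h1 := hΛ i j hij (a * s i) (b * s j) (by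
      ext l
      have := congrFun hab l
      simp only [hΛ', Pi.smul_apply, smul_eq_mul] at this ⊢
      linarith)
    exact ⟨(mul_eq_zero.1 h1.1).resolve_right (hs0 i), (mul_eq_zero.1 h1.2).resolve_right (hs0 j)⟩) hε
  have h2 : ∀ i, ∃ X0 : ℕ, ∀ X : ℕ, X0 ≤ X → ∀ M N : ℕ, M ≤ N → N ≤ X →
      GN (r + 1) (win M N (bal (s i) (S i) (δ i))) X ≤ η * (X : ℝ) ^ (r + 2) := by
    intro i
    obtain ⟨X0, h3⟩ := hsm i η hη
    exact ⟨X0, fun X hX M N hM hN => h3 X hX _ rfl M N hM hN⟩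
  choose X2 h2 using h2
  refine ⟨X1 + ∑ i, X2 i, fun X hX c M N hM hN P P' hP => ?_⟩
  have hX2 : ∀ i, X2 i ≤ X := fun i => (single_le_sum (f := X2) (fun _ _ => Nat.zero_le _) (mem_univ i)).trans (by omega)
  rw [Cn_eq Λ c hs, Cn_eq Λ c hs]
  have hind1 : ∀ (s : ℤ) (T : Set ℤ) (n : ℤ), |ind s T n| ≤ 1 := by
    intro s T n
    rw [abs_of_nonneg (ind_nonneg _ _ _)]
    exact ind_le_one _ _ _
  have e1 : (∏ i, δ i) * ∑ x ∈ box P P', ∏ i, win (M i) (N i) (ind (s i) Set.univ) (dot (fun j => s i * Λ i j) x + s i * c i)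
      = ∑ x ∈ box P P', ∏ i, (fun n => δ i * win (M i) (N i) (ind (s i) Set.univ) n) (dot (fun j => s i * Λ i j) x + s i * c i) := by
    rw [mul_sum]
    apply sum_congr rfl; intro x _
    rw [prod_mul_distrib]
  rw [e1]
  have e2 : ∀ i, (fun n => win (M i) (N i) (ind (s i) (S i)) n - δ i * win (M i) (N i) (ind (s i) Set.univ) n)
      = win (M i) (N i) (bal (s i) (S i) (δ i)) := by
    intro i
    ext n
    unfold win Pool.Agent.W41.FU.bal
    have : ind (s i) Set.univ n = 1 := by unfold Pool.Agent.W41.ind; simp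
    rw [this]
    split_ifs <;> ring
  refine h X (by omega) (fun i => s i * c i) P P' hP (fun i => win (M i) (N i) (ind (s i) (S i)))
    (fun i n => δ i * win (M i) (N i) (ind (s i) Set.univ) n) (fun i => win_abs (hind1 _ _) _ _) ?_ ?_ ?_ ?_
  · intro i n
    rw [abs_mul, abs_of_nonneg (hd i).1]
    exact mul_le_one₀ (hd i).2 (abs_nonneg _) (win_abs (hind1 _ _) _ _ _)
  · intro i
    rw [e2]
    exact win_abs (fun n => GF.bal_abs' _ _ (hd i).1 (hd i).2 n) _ _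
  · intro i
    rw [e2]
    exact win_sup _ _ (hN i)
  · intro i
    rw [e2]
    exact h2 i X (hX2 i) _ _ (hM i) (hN i)

end Pool.Agent.Q179.DV
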