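import Pool.Agent.Q49.AF.Cyc

/-! The time shift between a trajectory and the trajectories merging with it: limit laws. -/

set_option autoImplicit false

namespace Pool.Agent.Q179.DV

open Finset Filter Topology
open Pool.Agent.Y964.LW hiding thr
open Pool.Agent.H499R2.CO (Tz)
open Pool.Agent.H499R2.ND (Dn Td Phi Phi_continuous phi_cdf cnt cnt_le cntn_nonneg cnt_or cnt_small cnt_mono HD Inv
  dens_side Stay stay_side G)
open Pool.Agent.H499R2.LT (od Dn_iff joint_side hit_side od_side tb2 od_add dn_side)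
open Pool.Agent.Q49.AF

/-- squeezing densities -/
theorem Dn_squeeze {P : ℕ → Prop} {l : ℝ} (h : ∀ ε : ℝ, 0 < ε → ∃ (Q : ℕ → Prop) (l' : ℝ), Dn Q l' ∧ |l' - l| ≤ ε ∧
    ∀ᶠ N : ℕ in atTop, |cnt P N - cnt Q N| ≤ ε * N) : Dn P l := by
  unfold Dn
  rw [Metric.tendsto_nhds]
  intro ε hε
  obtain ⟨Q, l', hQ, hl, hN⟩ := h (ε / 4) (by positivity)
  have h1 := (Metric.tendsto_nhds.1 hQ) (ε / 4) (by positivity)
  filter_upwards [h1, hN, eventually_ge_atTop 1] with N h2 h3 h4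
  have hN0 : (0 : ℝ) < N := by exact_mod_cast h4
  rw [Real.dist_eq] at h2 ⊢
  have h5 : |cnt P N / N - cnt Q N / N| ≤ ε / 4 := by
    rw [← sub_div, abs_div, abs_of_pos hN0, div_le_iff₀ hN0]; exact h3
  have e : cnt P N / N - l = (cnt P N / N - cnt Q N / N) + (cnt Q N / N - l') + (l' - l) := by ring
  rw [e]
  refine (abs_add_le _ _).trans_lt ?_
  have h6 := abs_add_le (cnt P N / N - cnt Q N / N) (cnt Q N / N - l')
  linarith

/-- `x` meets the trajectory of `a`, with time shift `u` and shift `v` of the number of odd terms -/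
def Sh (a x u v : ℤ) : Prop := ∃ k j : ℕ, (Td 1)^[k] x = (Td 1)^[j] a ∧ (k : ℤ) - j = u ∧ od 1 k x - od 1 j a = v

theorem Sh_late {a x u v : ℤ} (h : Sh a x u v) (K : ℕ) : ∃ k j : ℕ, K ≤ k ∧ K ≤ j ∧ (Td 1)^[k] x = (Td 1)^[j] a ∧
    (k : ℤ) - j = u ∧ od 1 k x - od 1 j a = v := by
  obtain ⟨k, j, h1, h2, h3⟩ := h
  refine ⟨k + K, j + K, by omega, by omega, ?_, by push_cast; linarith, ?_⟩
  · rw [Nat.add_comm k K, Nat.add_comm j K, Function.iterate_add_apply, Function.iterate_add_apply, h1]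
  · rw [od_add, od_add, h1]; linarith

theorem Sh_unique {a x : ℤ} (ha : Function.Injective (fun j : ℕ => (Td 1)^[j] a)) {u v u' v' : ℤ}
    (h : Sh a x u v) (h' : Sh a x u' v') : u = u' ∧ v = v' := by
  obtain ⟨k, j, h1, h2, h3⟩ := h
  obtain ⟨k', j', h1', h2', h3'⟩ := h'
  have key : ∀ {k j k' j' : ℕ}, k ≤ k' → (Td 1)^[k] x = (Td 1)^[j] a → (Td 1)^[k'] x = (Td 1)^[j'] a →
      (k : ℤ) - j = (k' : ℤ) - j' ∧ od 1 k x - od 1 j a = od 1 k' x - od 1 j' a := by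
    intro k j k' j' hk e1 e2
    obtain ⟨i, rfl⟩ := Nat.exists_eq_add_of_le hk
    have e3 : (Td 1)^[j + i] a = (Td 1)^[j'] a := by
      rw [← e2, Nat.add_comm k i, Nat.add_comm j i, Function.iterate_add_apply, Function.iterate_add_apply, e1]
    have e4 : j + i = j' := ha e3
    subst e4
    refine ⟨by push_cast; ring, ?_⟩
    rw [od_add, od_add, e1]; ring
  rcases le_total k k' with hk | hk
  · obtain ⟨e1, e2⟩ := key hk h1 h1'
    exact ⟨by linarith, by linarith⟩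
  · obtain ⟨e1, e2⟩ := key hk h1' h1
    exact ⟨by linarith, by linarith⟩

theorem Sh_step {a x u v : ℤ} : Sh a (Td 1 x) (u - 1) (v - (if x % 2 = 0 then 0 else 1)) ↔ Sh a x u v := by
  constructor
  · rintro ⟨k, j, h1, h2, h3⟩
    refine ⟨k + 1, j, by rw [Function.iterate_succ_apply]; exact h1, by push_cast; linarith, ?_⟩
    rw [od]; linarith
  · intro h
    obtain ⟨k, j, hk, _, h1, h2, h3⟩ := Sh_late h 1
    obtain ⟨k', rfl⟩ : ∃ k', k = k' + 1 := ⟨k - 1, by omega⟩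
    refine ⟨k', j, by rw [Function.iterate_succ_apply] at h1; exact h1, by push_cast at h2; linarith, ?_⟩
    rw [od] at h3; linarith

theorem Td_two (x : ℤ) : Td 1 (2 * x) = x := by unfold Td; rw [if_pos (by omega)]; omega

theorem Sh_two {a x u v : ℤ} : Sh a (2 * x) u v ↔ Sh a x (u - 1) v := by
  rw [← Sh_step, Td_two, if_pos (by omega), sub_zero]

theorem Tz_Td {s : ℤ} (hs : s = 1 ∨ s = -1) (j : ℕ) (x : ℤ) : (Tz s)^[j] x = s * (Td 1)^[j] (s * x) := by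
  have hss : ∀ y : ℤ, s * (s * y) = y := fun y => by rcases hs with rfl | rfl <;> ring
  induction j generalizing x with
  | zero => simp [hss]
  | succ j ih =>
    rw [Function.iterate_succ_apply, Function.iterate_succ_apply, ih]
    congr 2
    unfold Tz Td
    rcases hs with rfl | rfl
    · simp
    · by_cases h : x % 2 = 0
      · rw [if_pos h, if_pos (by omega)]; omega
      · rw [if_neg h, if_neg (by omega)]; omega

theorem oc_Td {s : ℤ} (hs : s = 1 ∨ s = -1) (k : ℕ) (x : ℤ) : ((oc s k x : ℕ) : ℤ) = od 1 k (s * x) := by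
  rw [Pool.Agent.Q49.AF.oc_od, ← od_side odd_one hs, mul_one]

theorem Sh_same {s : ℤ} (hs : s = 1 ∨ s = -1) {a u v : ℤ} {j : ℕ} {x y : ℤ} (h1 : (Tz s)^[j] x = (Tz s)^[j] y)
    (h2 : oc s j x = oc s j y) (h : Sh a (s * x) u v) : Sh a (s * y) u v := by
  have hs0 : s ≠ 0 := by rcases hs with rfl | rfl <;> norm_num
  rw [Tz_Td hs, Tz_Td hs] at h1
  have e1 := mul_left_cancel₀ hs0 h1
  have e2 : od 1 j (s * x) = od 1 j (s * y) := by rw [← oc_Td hs, ← oc_Td hs, h2]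
  obtain ⟨k, i, hk, _, h3, h4, h5⟩ := Sh_late h j
  obtain ⟨k', rfl⟩ := Nat.exists_eq_add_of_le hk
  refine ⟨j + k', i, ?_, h4, ?_⟩
  · rw [Nat.add_comm, Function.iterate_add_apply] at h3 ⊢
    rw [← e1]; exact h3
  · rw [od_add] at h5 ⊢
    rw [← e1, ← e2]; exact h5

/-- the level of the class of `a` -/
def Lv (s a : ℤ) (m : ℕ) (p q : ℤ) (τ : ℝ) (n : ℕ) : Prop :=
  ∃ u v : ℤ, Sh a (s * n) u v ∧ (u : ℝ) ≤ τ ∧ u ≡ p [ZMOD m] ∧ v ≡ q [ZMOD m]

/-- invariant sets as a family of events -/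
noncomputable def invFam {s : ℤ} (hs : s = 1 ∨ s = -1) {S : Set ℤ} (hS : Inv 1 S) {δ : ℝ} (h0 : 0 ≤ δ) (h1 : δ ≤ 1)
    (hδ : Dn (fun n => s * (n : ℤ) ∈ S) δ) : Fam s 0 Unit where
  E := fun _ _ n => s * (n : ℤ) ∈ S
  sh := id
  w := 0
  α := 1
  σ := 1
  F := fun _ _ => δ
  hw := le_rfl
  hσ := one_pos
  mono := fun _ _ _ _ _ h => h
  same := fun _ _ j x y _ _ h1 _ _ h => by
    have hs0 : s ≠ 0 := by rcases hs with rfl | rfl <;> norm_num
    rw [Tz_Td hs, Tz_Td hs] at h1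
    have e1 := mul_left_cancel₀ hs0 h1
    have it : ∀ (k : ℕ) (z : ℤ), z ∈ S ↔ (Td 1)^[k] z ∈ S := by
      intro k
      induction k with
      | zero => intro z; exact Iff.rfl
      | succ k ih => intro z; rw [Function.iterate_succ_apply, ← ih]; exact hS z
    rw [it j, ← e1, ← it j]; exact h
  two := fun _ _ n _ => by
    show s * ((2 * n : ℕ) : ℤ) ∈ S ↔ s * (n : ℤ) ∈ S
    have e : s * ((2 * n : ℕ) : ℤ) = 2 * (s * n) := by push_cast; ring
    rw [e, hS (2 * (s * n)), Td_two]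
  Fsh := fun _ _ => rfl
  F01 := fun _ _ => ⟨h0, h1⟩
  cont := fun _ => continuous_const
  law := fun _ _ => hδ

theorem inv_RX {s : ℤ} (hs : s = 1 ∨ s = -1) {S : Set ℤ} (hS : Inv 1 S) {δ : ℝ} (h0 : 0 ≤ δ) (h1 : δ ≤ 1)
    (hδ : Dn (fun n => s * (n : ℤ) ∈ S) δ) : RX (fun n => s * (n : ℤ) ∈ S) δ :=
  fam_RX hs (invFam hs hS h0 h1 hδ) () 0

/-- the integers which meet the trajectory of `a` -/
def Mt (a : ℤ) : Set ℤ := {x : ℤ | ∃ u v : ℤ, Sh a x u v}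

theorem Mt_inv (a : ℤ) : Inv 1 (Mt a) := by
  intro x
  constructor
  · rintro ⟨u, v, h⟩; exact ⟨_, _, Sh_step.2 h⟩
  · rintro ⟨u, v, h⟩
    refine ⟨u + 1, v + (if x % 2 = 0 then 0 else 1), Sh_step.1 ?_⟩
    rw [add_sub_cancel_right, add_sub_cancel_right]; exact h

theorem Mt_iter (a : ℤ) (k : ℕ) (x : ℤ) : x ∈ Mt a ↔ (Td 1)^[k] x ∈ Mt a := by
  induction k generalizing x with
  | zero => exact Iff.rfl
  | succ k ih => rw [Function.iterate_succ_apply, ← ih]; exact Mt_inv a x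

theorem stay_cnt {s : ℤ} (hs : s = 1 ∨ s = -1) {ε : ℝ} (hε : 0 < ε) : ∃ y : ℝ, 2 ≤ y ∧ ∀ N : ℕ, 1 ≤ N →
    cnt (fun n : ℕ => s * (n : ℤ) ∈ Stay 1 y) N ≤ ε * N := by
  classical
  obtain ⟨K, hK, h⟩ := stay_side 1 odd_one isCoprime_one_left hs
  refine ⟨max 2 (Real.exp (2 * K / ε)), le_max_left _ _, fun N hN => ?_⟩
  set y : ℝ := max 2 (Real.exp (2 * K / ε)) with hy
  have hN0 : (1 : ℝ) ≤ N := by exact_mod_cast hN
  have h1 := h y (le_max_left _ _) (N + 1) (by positivity)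
  have h2 : 2 * K / ε ≤ Real.log y := by
    rw [Real.le_log_iff_exp_le (by positivity)]; exact le_max_right _ _
  have h3 : 0 < 2 * K / ε := by positivity
  have h4 : cnt (fun n : ℕ => s * (n : ℤ) ∈ Stay 1 y) N ≤ G {x | s * x ∈ Stay 1 y} (N + 1) := by
    rw [Pool.Agent.H499R2.ND.cnt_eq]
    unfold G
    have h5 : ((Icc 1 N).filter (fun n : ℕ => s * (n : ℤ) ∈ Stay 1 y)).card ≤
        (Pool.Agent.H499R2.ND.pos {x | s * x ∈ Stay 1 y} ((N : ℝ) + 1)).card := by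
      apply card_le_card_of_injOn (fun n : ℕ => (n : ℤ))
      · intro n hn
        rw [mem_coe, mem_filter, mem_Icc] at hn
        rw [mem_coe, Pool.Agent.H499R2.ND.mem_pos]
        refine ⟨⟨by show (1 : ℤ) ≤ (n : ℤ); exact_mod_cast hn.1.1, ?_⟩, hn.2⟩
        have : (n : ℝ) ≤ N := by exact_mod_cast hn.1.2
        push_cast
        linarith
      · intro a _ b _ hab
        exact Nat.cast_injective hab
    exact_mod_cast h5
  refine h4.trans (h1.trans ?_)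
  rw [pow_one, div_le_iff₀ (by linarith)]
  have h6 : K * (N + 1) ≤ ε * N * (2 * K / ε) := by
    have e : ε * N * (2 * K / ε) = 2 * K * N := by field_simp
    rw [e]; nlinarith
  refine h6.trans (mul_le_mul_of_nonneg_left h2 (by positivity))

/-- all small elements of the class are joined to the trajectory of `a` before the time `J` -/
theorem exhaust (a : ℤ) (y : ℝ) : ∃ J0 : ℕ, ∀ x : ℤ, x ∈ Mt a → x ∉ Stay 1 y → ∀ J : ℕ, J0 ≤ J →
    ∃ k : ℕ, (Td 1)^[k] x = (Td 1)^[J] a := by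
  classical
  have h1 : ∀ z : ℤ, ∃ j : ℕ, z ∈ Mt a → ∃ k : ℕ, (Td 1)^[k] z = (Td 1)^[j] a := by
    intro z
    by_cases hz : z ∈ Mt a
    · obtain ⟨u, v, k, j, h1, _⟩ := hz
      exact ⟨j, fun _ => ⟨k, h1⟩⟩
    · exact ⟨0, fun h => absurd h hz⟩
  choose j hj using h1
  refine ⟨(Icc (-⌈y⌉) ⌈y⌉).sup j, fun x hx hS J hJ => ?_⟩
  have h2 : ∃ i : ℕ, |(((Td 1)^[i] x : ℤ) : ℝ)| ≤ y := by
    by_contra hcon
    push Not at hcon
    exact hS hcon
  obtain ⟨i, hi⟩ := h2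
  have h3 : (Td 1)^[i] x ∈ Icc (-⌈y⌉) ⌈y⌉ := by
    obtain ⟨b1, b2⟩ := abs_le.1 hi
    rw [mem_Icc]
    constructor
    · have : (-(⌈y⌉ : ℤ) : ℝ) ≤ (((Td 1)^[i] x : ℤ) : ℝ) := by
        have := Int.le_ceil y
        linarith
      exact_mod_cast this
    · have : (((Td 1)^[i] x : ℤ) : ℝ) ≤ (⌈y⌉ : ℝ) := b2.trans (Int.le_ceil y)
      exact_mod_cast this
  obtain ⟨k, hk⟩ := hj _ ((Mt_iter a i x).1 hx)
  have h4 : j ((Td 1)^[i] x) ≤ J := (le_sup h3).trans hJ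
  refine ⟨(J - j ((Td 1)^[i] x)) + k + i, ?_⟩
  rw [Function.iterate_add_apply, Function.iterate_add_apply, hk, ← Function.iterate_add_apply,
    Nat.sub_add_cancel h4]

theorem hit_Sh {a x : ℤ} {J k : ℕ} (h : (Td 1)^[k] x = (Td 1)^[J] a) : Sh a x (k - J) (od 1 k x - od 1 J a) :=
  ⟨k, J, h, rfl, rfl⟩

theorem thr_shift {σ θ : ℝ} (hσ : 0 < σ) (hθ : 0 < θ) (J : ℝ) : ∃ n0 : ℕ, ∀ n : ℕ, n0 < n → ∀ α x : ℝ,
    Pool.Agent.Y964.LW.thr α σ x (Real.log n) + J ≤ Pool.Agent.Y964.LW.thr α σ (x + θ) (Real.log n) := by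
  have tl : Tendsto (fun N : ℕ => θ * σ * Real.sqrt (Real.log N)) atTop atTop :=
    (Real.tendsto_sqrt_atTop.comp (Real.tendsto_log_atTop.comp tendsto_natCast_atTop_atTop)).const_mul_atTop
      (by positivity)
  obtain ⟨n0, hn0⟩ := eventually_atTop.1 (tl.eventually_ge_atTop J)
  refine ⟨n0, fun n hn α x => ?_⟩
  have := hn0 n hn.le
  unfold Pool.Agent.Y964.LW.thr
  nlinarith

/-- THE LAW OF THE TIME SHIFT in natural density -/
theorem class_laws {s : ℤ} (hs : s = 1 ∨ s = -1) {a : ℤ} (ha : Function.Injective (fun j : ℕ => (Td 1)^[j] a)) :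
    ∃ δ : ℝ, 0 ≤ δ ∧ δ ≤ 1 ∧ (0 < s * a → 0 < δ) ∧ Dn (fun n : ℕ => s * (n : ℤ) ∈ Mt a) δ ∧
    ∀ (x : ℝ) (m : ℕ) (p q : ℤ), 1 ≤ m → Dn (fun n : ℕ => Lv s a m p q (Pool.Agent.Y964.LW.thr
      (2 / Real.log (4 / 3)) (Real.log 3 * Pool.Agent.H499R2.HL.rr) x (Real.log n)) n) (δ / m ^ 2 * Phi x) := by
  classical
  obtain ⟨δ, h0, h1, hδ⟩ := dens_side odd_one isCoprime_one_left hs (Mt_inv a)
  have hself : a ∈ Mt a := ⟨0, 0, 0, 0, rfl, by simp, by simp⟩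
  have hD := dn_side hδ
  refine ⟨δ, h0, h1, fun h => Pool.Agent.H499R2.ND.one_pos hs (Mt_inv a) hself h hδ, hD, ?_⟩
  have h13 : ¬ (3 : ℤ) ∣ 1 := by omega
  have hj := fun J : ℕ => joint_side odd_one h13 hs ({(Td 1)^[J] a} : Finset ℤ)
  choose d hd0 _ hdd hdl using hj
  -- the densities of the sets of integers which meet the trajectory before the time `J`
  have hsub : ∀ (J : ℕ) (x : ℤ), (∃ k : ℕ, (Td 1)^[k] x ∈ ({(Td 1)^[J] a} : Finset ℤ)) → x ∈ Mt a := by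
    rintro J x ⟨k, hk⟩
    rw [mem_singleton] at hk
    exact ⟨_, _, hit_Sh hk⟩
  have hexh : ∀ y : ℝ, ∃ J0 : ℕ, ∀ J : ℕ, J0 ≤ J → ∀ n : ℕ, s * (n : ℤ) ∈ Mt a → 
      (∃ k : ℕ, (Td 1)^[k] (s * (n : ℤ)) ∈ ({(Td 1)^[J] a} : Finset ℤ)) ∨ s * (n : ℤ) ∈ Stay 1 y := by
    intro y
    obtain ⟨J0, hJ0⟩ := exhaust a y
    refine ⟨J0, fun J hJ n hn => ?_⟩
    by_cases hS : s * (n : ℤ) ∈ Stay 1 y
    · exact Or.inr hS
    · obtain ⟨k, hk⟩ := hJ0 _ hn hS J hJ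
      exact Or.inl ⟨k, by rw [mem_singleton]; exact hk⟩
  have hclose : ∀ ε : ℝ, 0 < ε → ∃ y : ℝ, (∀ N : ℕ, 1 ≤ N → cnt (fun n : ℕ => s * (n : ℤ) ∈ Stay 1 y) N ≤ ε * N) ∧
      ∃ J : ℕ, (∀ n : ℕ, s * (n : ℤ) ∈ Mt a →
      (∃ k : ℕ, (Td 1)^[k] (s * (n : ℤ)) ∈ ({(Td 1)^[J] a} : Finset ℤ)) ∨ s * (n : ℤ) ∈ Stay 1 y) ∧ |d J - δ| ≤ ε := by
    intro ε hε
    obtain ⟨y, _, hy⟩ := stay_cnt hs hε
    obtain ⟨J0, hJ0⟩ := hexh y
    refine ⟨y, hy, J0, hJ0 J0 le_rfl, ?_⟩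
    have h2 : d J0 ≤ δ := by
      refine le_of_tendsto_of_tendsto (hdd J0) hD ?_
      filter_upwards [eventually_ge_atTop 1] with N hN
      exact div_le_div_of_nonneg_right (cnt_mono N fun n _ _ h => hsub J0 _ h) (Nat.cast_nonneg N)
    have h3 : δ ≤ d J0 + ε := by
      refine le_of_tendsto_of_tendsto hD ((hdd J0).add_const ε) ?_
      filter_upwards [eventually_ge_atTop 1] with N hN
      have hN0 : (0 : ℝ) < N := by exact_mod_cast hN
      have h4 := cnt_or (P := fun n : ℕ => s * (n : ℤ) ∈ Mt a) (Q := fun n : ℕ => ∃ k : ℕ, (Td 1)^[k] (s * (n : ℤ)) ∈ ({(Td 1)^[J0] a} : Finset ℤ))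
        (R := fun n : ℕ => s * (n : ℤ) ∈ Stay 1 y) N (fun n _ _ h => hJ0 J0 le_rfl n h)
      have h5 := hy N hN
      rw [div_le_iff₀ hN0, add_mul, div_mul_cancel₀ _ hN0.ne']
      linarith
    rw [abs_le]; constructor <;> linarith
  intro x m p q hm
  have hm1 : (1 : ℝ) ≤ (m : ℝ) ^ 2 := one_le_pow₀ (by exact_mod_cast hm)
  have hrr := Pool.Agent.H499R2.HL.rr_pos
  have hσ : 0 < Real.log 3 * Pool.Agent.H499R2.HL.rr := mul_pos (Real.log_pos (by norm_num)) hrr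
  set α : ℝ := 2 / Real.log (4 / 3) with hα
  set σ : ℝ := Real.log 3 * Pool.Agent.H499R2.HL.rr with hσd
  have hthr : ∀ (y : ℝ) (n : ℕ), 1 ≤ n → Real.log n / Pool.Agent.H319R2.Lln.mu + y * Pool.Agent.H499R2.ND.sg * Real.sqrt (Real.log n)
      = Pool.Agent.Y964.LW.thr α σ y (Real.log n) := by
    intro y n hn
    rw [tb2 y n hn, ← bk_thr]
    rfl
  apply Dn_squeeze
  intro ε hε
  obtain ⟨y, hy, J, hJ, hdJ⟩ := hclose (ε / 4) (by positivity)
  -- continuity of the normal law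
  obtain ⟨θ, hθ, hc⟩ : ∃ θ : ℝ, 0 < θ ∧ |Phi (x + θ) - Phi x| ≤ ε / 8 := by
    obtain ⟨η, hη, h2⟩ := Metric.continuousAt_iff.1 (Phi_continuous.continuousAt (x := x)) (ε / 8) (by positivity)
    refine ⟨η / 2, by positivity, ?_⟩
    have := h2 (x := x + η / 2) (by rw [Real.dist_eq, add_sub_cancel_left, abs_of_pos (by positivity)]; linarith)
    rw [Real.dist_eq] at this
    exact this.le
  obtain ⟨n0, hn0⟩ := thr_shift (σ := σ) hσ hθ (J : ℝ)
  set L : ℝ → ℕ → Prop := fun z n => ∃ k : ℕ,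
      (k : ℝ) ≤ Real.log n / Pool.Agent.H319R2.Lln.mu + z * Pool.Agent.H499R2.ND.sg * Real.sqrt (Real.log n) ∧
      ((Td 1)^[k] (s * n) ∈ ({(Td 1)^[J] a} : Finset ℤ) ∧ ∀ i < k, (Td 1)^[i] (s * n) ∉ ({(Td 1)^[J] a} : Finset ℤ)) ∧
      (k : ℤ) ≡ p + J [ZMOD m] ∧ od 1 k (s * n) ≡ q + od 1 J a [ZMOD m] with hL
  have hLd : ∀ z, Dn (L z) (d J / m ^ 2 * Phi z) := fun z => hdl J z m (p + J) (q + od 1 J a) hm
  have hdJ0 := hd0 J
  have hdJ1 : d J ≤ 1 := by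
    refine le_of_tendsto (hdd J) (Filter.Eventually.of_forall fun N => ?_)
    rcases Nat.eq_zero_or_pos N with h | h
    · subst h; simp
    · have hN : (0 : ℝ) < N := by exact_mod_cast h
      rw [div_le_one hN]
      exact cnt_le _ N
  have hphi := phi01 x
  refine ⟨L x, _, hLd x, ?_, ?_⟩
  · have e : d J / (m : ℝ) ^ 2 * Phi x - δ / (m : ℝ) ^ 2 * Phi x = (d J - δ) * (Phi x / (m : ℝ) ^ 2) := by ring
    rw [e, abs_mul, abs_of_nonneg (div_nonneg hphi.1 (by positivity))]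
    have h2 : Phi x / (m : ℝ) ^ 2 ≤ 1 := (div_le_one (by positivity)).2 (hphi.2.trans hm1)
    have h3 := mul_le_mul hdJ h2 (div_nonneg hphi.1 (by positivity)) (by positivity)
    linarith
  · -- the two inclusions
    have i1 : ∀ n : ℕ, 1 ≤ n → L x n → Lv s a m p q (Pool.Agent.Y964.LW.thr α σ x (Real.log n)) n := by
      rintro n hn ⟨k, hk1, ⟨hk2, _⟩, hk3, hk4⟩
      rw [mem_singleton] at hk2
      rw [hthr x n hn] at hk1
      refine ⟨_, _, hit_Sh hk2, ?_, ?_, ?_⟩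
      · push_cast
        have : (0 : ℝ) ≤ J := Nat.cast_nonneg J
        linarith
      · have := hk3.sub_right (J : ℤ)
        rwa [add_sub_cancel_right] at this
      · have := hk4.sub_right (od 1 J a)
        rwa [add_sub_cancel_right] at this
    have i2 : ∀ n : ℕ, 1 ≤ n → Lv s a m p q (Pool.Agent.Y964.LW.thr α σ x (Real.log n)) n →
        (L (x + θ) n ∨ (n : ℝ) ≤ n0) ∨ s * (n : ℤ) ∈ Stay 1 y := by
      rintro n hn ⟨u, v, hu1, hu2, hu3, hu4⟩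
      rcases hJ n ⟨u, v, hu1⟩ with h | h
      · left
        by_cases hnn : (n : ℝ) ≤ n0
        · exact Or.inr hnn
        · left
          have hnn' : n0 < n := by
            push Not at hnn
            exact_mod_cast hnn
          set k := Nat.find h with hk
          have hk2 := Nat.find_spec h
          have hk3 : ∀ i < k, (Td 1)^[i] (s * (n : ℤ)) ∉ ({(Td 1)^[J] a} : Finset ℤ) := fun i hi => Nat.find_min h hi
          obtain ⟨e1, e2⟩ := Sh_unique ha hu1 (hit_Sh (mem_singleton.1 hk2))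
          refine ⟨k, ?_, ⟨hk2, hk3⟩, ?_, ?_⟩
          · rw [hthr _ n hn]
            have h5 := hn0 n hnn' α x
            rw [e1] at hu2
            push_cast at hu2
            linarith
          · rw [e1] at hu3
            have := hu3.add_right (J : ℤ)
            rwa [sub_add_cancel] at this
          · rw [e2] at hu4
            have := hu4.add_right (od 1 J a)
            rwa [sub_add_cancel] at this
      · exact Or.inr h
    have t1 := (hLd (x + θ)).sub (hLd x)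
    have t2 : d J / (m : ℝ) ^ 2 * Phi (x + θ) - d J / (m : ℝ) ^ 2 * Phi x < ε / 4 := by
      have e : d J / (m : ℝ) ^ 2 * Phi (x + θ) - d J / (m : ℝ) ^ 2 * Phi x = (Phi (x + θ) - Phi x) * (d J / (m : ℝ) ^ 2) := by ring
      rw [e]
      have h2 : d J / (m : ℝ) ^ 2 ≤ 1 := (div_le_one (by positivity)).2 (hdJ1.trans hm1)
      have h3 : |(Phi (x + θ) - Phi x) * (d J / (m : ℝ) ^ 2)| ≤ ε / 8 * 1 := by
        rw [abs_mul, abs_of_nonneg (div_nonneg hdJ0 (by positivity) : 0 ≤ d J / (m : ℝ) ^ 2)]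
        exact mul_le_mul hc h2 (div_nonneg hdJ0 (by positivity)) (by positivity)
      have h4 := le_abs_self ((Phi (x + θ) - Phi x) * (d J / (m : ℝ) ^ 2))
      linarith
    have t3 := t1.eventually_lt_const t2
    have t4 : Tendsto (fun N : ℕ => (n0 : ℝ) / N) atTop (𝓝 0) := tendsto_const_div_atTop_nhds_zero_nat _
    have t5 := t4.eventually_lt_const (show (0 : ℝ) < ε / 4 by positivity)
    filter_upwards [t3, t5, eventually_ge_atTop 1] with N h3 h5 hN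
    have hN0 : (0 : ℝ) < N := by exact_mod_cast hN
    have g1 : cnt (L x) N ≤ cnt (fun n : ℕ => Lv s a m p q (Pool.Agent.Y964.LW.thr α σ x (Real.log n)) n) N :=
      cnt_mono N fun n hn _ h => i1 n hn h
    have g2 := cnt_or (P := fun n : ℕ => Lv s a m p q (Pool.Agent.Y964.LW.thr α σ x (Real.log n)) n)
      (Q := fun n : ℕ => L (x + θ) n ∨ (n : ℝ) ≤ n0) (R := fun n : ℕ => s * (n : ℤ) ∈ Stay 1 y) N (fun n hn _ h => i2 n hn h)
    have g3 := cnt_or (P := fun n : ℕ => L (x + θ) n ∨ (n : ℝ) ≤ n0) (Q := L (x + θ)) (R := fun n : ℕ => (n : ℝ) ≤ n0) N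
      (fun n _ _ h => h)
    have g4 := cnt_small (Nat.cast_nonneg n0 : (0 : ℝ) ≤ n0) N
    have g5 := hy N hN
    rw [← sub_div, div_lt_iff₀ hN0] at h3
    rw [div_lt_iff₀ hN0] at h5
    rw [abs_of_nonneg (by linarith)]
    linarith

/-- the class of `a`, graded, as a family of events -/
noncomputable def lvFam {s : ℤ} (hs : s = 1 ∨ s = -1) {a : ℤ} {δ : ℝ} (h0 : 0 ≤ δ) (h1 : δ ≤ 1) {m : ℕ} (hm : 1 ≤ m)
    (law : ∀ (x : ℝ) (p q : ℤ), Dn (fun n : ℕ => Lv s a m p q (Pool.Agent.Y964.LW.thr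
      (2 / Real.log (4 / 3)) (Real.log 3 * Pool.Agent.H499R2.HL.rr) x (Real.log n)) n) (δ / m ^ 2 * Phi x)) :
    Fam s 0 (ℤ × ℤ) where
  E := fun i τ n => Lv s a m i.1 i.2 τ n
  sh := fun i => (i.1 - 1, i.2)
  w := 1
  α := 2 / Real.log (4 / 3)
  σ := Real.log 3 * Pool.Agent.H499R2.HL.rr
  F := fun _ x => δ / m ^ 2 * Phi x
  hw := zero_le_one
  hσ := mul_pos (Real.log_pos (by norm_num)) Pool.Agent.H499R2.HL.rr_pos
  mono := fun i τ τ' n hτ h => by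
    obtain ⟨u, v, g1, g2, g3, g4⟩ := h
    exact ⟨u, v, g1, g2.trans hτ, g3, g4⟩
  same := fun i τ j x y _ _ g1 g2 _ h => by
    obtain ⟨u, v, k1, k2, k3, k4⟩ := h
    exact ⟨u, v, Sh_same hs g1 g2 k1, k2, k3, k4⟩
  two := fun i τ n _ => by
    have e : s * ((2 * n : ℕ) : ℤ) = 2 * (s * n) := by push_cast; ring
    unfold Lv
    rw [e]
    constructor
    · rintro ⟨u, v, k1, k2, k3, k4⟩
      refine ⟨u - 1, v, Sh_two.1 k1, by push_cast; linarith, k3.sub_right 1, k4⟩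
    · rintro ⟨u, v, k1, k2, k3, k4⟩
      refine ⟨u + 1, v, Sh_two.2 (by rw [add_sub_cancel_right]; exact k1), by push_cast; linarith, ?_, k4⟩
      have := k3.add_right 1
      rwa [sub_add_cancel] at this
  Fsh := fun _ _ => rfl
  F01 := fun _ x => by
    have hm1 : (1 : ℝ) ≤ (m : ℝ) ^ 2 := one_le_pow₀ (by exact_mod_cast hm)
    exact ⟨mul_nonneg (div_nonneg h0 (by positivity)) (phi01 x).1,
      mul_le_one₀ ((div_le_one (by positivity)).2 (h1.trans hm1)) (phi01 x).1 (phi01 x).2⟩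
  cont := fun _ => continuous_const.mul Phi_continuous
  law := fun i x => law x i.1 i.2

/-- THE LAW OF THE TIME SHIFT relative to arithmetical functions -/
theorem class_RX {s : ℤ} (hs : s = 1 ∨ s = -1) {a : ℤ} (ha : Function.Injective (fun j : ℕ => (Td 1)^[j] a)) :
    ∃ δ : ℝ, 0 ≤ δ ∧ δ ≤ 1 ∧ (0 < s * a → 0 < δ) ∧ Dn (fun n : ℕ => s * (n : ℤ) ∈ Mt a) δ ∧
    RX (fun n : ℕ => s * (n : ℤ) ∈ Mt a) δ ∧
    ∀ (x : ℝ) (m : ℕ) (p q : ℤ), 1 ≤ m → RX (fun n : ℕ => Lv s a m p q (2 / Real.log (4 / 3) * Real.log n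
      + x * (Real.log 3 * Real.sqrt (2 * Real.log n / Real.log (4 / 3) ^ 3))) n) (δ / m ^ 2 * Phi x) := by
  obtain ⟨δ, h0, h1, hpos, hD, hlaw⟩ := class_laws hs ha
  refine ⟨δ, h0, h1, hpos, hD, inv_RX hs (Mt_inv a) h0 h1 hD, fun x m p q hm => ?_⟩
  have h2 := fam_RX hs (lvFam hs (a := a) h0 h1 hm (fun x p q => hlaw x m p q hm)) (p, q) x
  refine RX_congr (fun n hn => ?_) h2
  show Lv s a m p q (Pool.Agent.Y964.LW.thr (2 / Real.log (4 / 3)) (Real.log 3 * Pool.Agent.H499R2.HL.rr) x (Real.log n)) n ↔ _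
  rw [← bk_thr]
  exact Iff.rfl

end Pool.Agent.Q179.DV
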