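import Pool.Agent.Q179.DV.Lev
import Pool.Agent.Q179.DV.Shift

/-! The time shift of the integers that meet a given injective trajectory, as a graded family. -/

set_option autoImplicit false

namespace Pool.Agent.Q179.DV

open Finset Filter Topology
open Pool.Agent.H499R2.ND (Dn Td Phi Phi_continuous phi_cdf cnt cnt_le cnt_mono)
open Pool.Agent.H499R2.CO (Tz)
open Pool.Agent.H499R2.LT (od od_add Dn_iff Dn_sum)

theorem Sh_same' {s : ℤ} (hs : s = 1 ∨ s = -1) {a u v : ℤ} {j : ℕ} {x y : ℤ} (h1 : (Tz s)^[j] x = (Tz s)^[j] y)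
    (h : Sh a (s * x) u v) : ∃ v' : ℤ, Sh a (s * y) u v' := by
  have hs0 : s ≠ 0 := by rcases hs with rfl | rfl <;> norm_num
  rw [Tz_Td hs, Tz_Td hs] at h1
  have e1 := mul_left_cancel₀ hs0 h1
  obtain ⟨k, i, hk, _, h3, h4, h5⟩ := Sh_late h j
  obtain ⟨k', rfl⟩ := Nat.exists_eq_add_of_le hk
  refine ⟨_, j + k', i, ?_, h4, rfl⟩
  rw [Nat.add_comm, Function.iterate_add_apply] at h3 ⊢
  rw [← e1]; exact h3

/-- the time shift relative to the trajectory of `a` -/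
def shG {s : ℤ} (hs : s = 1 ∨ s = -1) (a : ℤ) (m : ℕ) : GF s m where
  E := fun p B n => ∃ u v : ℤ, Sh a (s * n) u v ∧ (u : ℝ) ≤ B ∧ u ≡ p [ZMOD m]
  mono := by
    rintro p B B' n hB ⟨u, v, h1, h2, h3⟩
    exact ⟨u, v, h1, h2.trans hB, h3⟩
  same := by
    rintro p B j x y h ⟨u, v, h1, h2, h3⟩
    obtain ⟨v', h4⟩ := Sh_same' hs h h1
    exact ⟨u, v', h4, h2, h3⟩
  two := by
    intro p B n
    have e : s * (2 * n) = 2 * (s * n) := by ring
    rw [e]
    constructor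
    · rintro ⟨u, v, k1, k2, k3⟩
      exact ⟨u - 1, v, Sh_two.1 k1, by push_cast; linarith, k3.sub_right 1⟩
    · rintro ⟨u, v, k1, k2, k3⟩
      refine ⟨u + 1, v, Sh_two.2 (by rw [add_sub_cancel_right]; exact k1), by push_cast; linarith, ?_⟩
      have := k3.add_right 1
      rwa [sub_add_cancel] at this
  shift := by
    intro p B n
    have h : p - m ≡ p [ZMOD m] := by
      unfold Int.ModEq
      rw [Int.sub_emod_right]
    constructor
    · rintro ⟨u, v, h1, h2, h3⟩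
      exact ⟨u, v, h1, h2, h3.trans h⟩
    · rintro ⟨u, v, h1, h2, h3⟩
      exact ⟨u, v, h1, h2, h3.trans h.symm⟩

/-- THE LAW OF THE TIME SHIFT -/
theorem shG_law {s : ℤ} (hs : s = 1 ∨ s = -1) {a : ℤ} (ha : Function.Injective (fun j : ℕ => (Td 1)^[j] a)) :
    ∃ δ : ℝ, 0 ≤ δ ∧ δ ≤ 1 ∧ (0 < s * a → 0 < δ) ∧ Dn (fun n : ℕ => s * (n : ℤ) ∈ Mt a) δ ∧
      ∀ m : ℕ, 1 ≤ m → (shG hs a m).Law δ := by
  obtain ⟨δ, h0, h1, hpos, hD, hlaw⟩ := class_laws hs ha
  refine ⟨δ, h0, h1, hpos, hD, fun m hm p x => ?_⟩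
  have hm0 : (0 : ℝ) < m := by exact_mod_cast hm
  have h5 := Dn_sum (range m) (fun (b n : ℕ) => Lv s a m p b (Pool.Agent.Y964.LW.thr
      (2 / Real.log (4 / 3)) (Real.log 3 * Pool.Agent.H499R2.HL.rr) x (Real.log n)) n)
      (fun _ => δ / m ^ 2 * Phi x)
      (fun b _ => hlaw x m p b hm) (by
    rintro n b hb b' hb' ⟨u, v, h1, -, -, h2⟩ ⟨u', v', h1', -, -, h2'⟩
    obtain ⟨-, e⟩ := Sh_unique ha h1 h1'
    subst e
    have h6 : (b : ℤ) ≡ (b' : ℤ) [ZMOD m] := h2.symm.trans h2'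
    rw [mem_range] at hb hb'
    unfold Int.ModEq at h6
    rw [Int.emod_eq_of_lt (by omega) (by omega), Int.emod_eq_of_lt (by omega) (by omega)] at h6
    exact_mod_cast h6)
  rw [sum_const, card_range, nsmul_eq_mul] at h5
  have e : (m : ℝ) * (δ / m ^ 2 * Phi x) = δ * Phi x / m := by field_simp
  rw [e] at h5
  refine Dn_iff (fun n _ => ?_) h5
  have et : Pool.Agent.Y964.LW.thr (2 / Real.log (4 / 3)) (Real.log 3 * Pool.Agent.H499R2.HL.rr) x (Real.log n) = bd x n := by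
    rw [← Pool.Agent.Y964.LW.bk_thr]
    rfl
  rw [et]
  constructor
  · rintro ⟨b, -, u, v, k1, k2, k3, -⟩
    exact ⟨u, v, k1, k2, k3⟩
  · rintro ⟨u, v, k1, k2, k3⟩
    refine ⟨(v % m).toNat, mem_range.2 ?_, u, v, k1, k2, k3, ?_⟩
    · have h7 : v % m < m := Int.emod_lt_of_pos _ (by exact_mod_cast hm)
      have h8 : 0 ≤ v % m := Int.emod_nonneg _ (by positivity)
      omega
    · have h8 : 0 ≤ v % m := Int.emod_nonneg _ (by
        have : (0 : ℤ) < m := by exact_mod_cast hm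
        exact this.ne')
      rw [Int.toNat_of_nonneg h8]
      exact (Int.mod_modEq _ _).symm

end Pool.Agent.Q179.DV
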