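import Pool.Agent.W41.FU8
import Pool.Agent.W41.MU4
import Pool.Agent.H499R2.CL.J
import Pool.Agent.H499R2.NDLln
import Pool.Agent.H499R2.NDMean

/-! Graded families of events that are constant on trajectories that are at the same time at the same
point, with a normal law in natural density: local constancy, dilations, Fourier coefficients. The
arguments follow the starting files `Pool/Agent/W36/JL` (total stopping times). -/

set_option autoImplicit false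

namespace Pool.Agent.Q179.DV

open Finset Filter Topology
open Pool.Agent.H499R2.ND (Dn cnt cnt_eq cnt_mono cnt_small cnt_le Phi Phi_mono Phi_continuous)
open Pool.Agent.H499R2.CO (Tz)
open Pool.Agent.W41 (ind ind_nonneg ind_le_one)
open Pool.Agent.W41.MU (lc)
open Pool.Agent.W41.FU (bal EE ee abel ee_diff ee_norm EE_triv EE_abs EE_res res SameT fourier)

theorem sum_cast {β : Type*} [AddCommMonoid β] (F : ℤ → β) (X : ℕ) :
    ∑ n ∈ Icc (1 : ℤ) X, F n = ∑ m ∈ Icc 1 X, F (m : ℕ) := by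
  have h1 : Icc (1 : ℤ) X = (Icc 1 X).image (fun m : ℕ => (m : ℤ)) := by
    ext n
    rw [mem_image, mem_Icc]
    constructor
    · intro h
      exact ⟨n.toNat, by rw [mem_Icc]; omega, by omega⟩
    · rintro ⟨m, hm, rfl⟩
      rw [mem_Icc] at hm
      omega
  rw [h1, sum_image]
  intro a _ b _ hab
  simpa using hab

/-- the threshold of the normal law -/
noncomputable def bd (x : ℝ) (n : ℕ) : ℝ :=
  2 / Real.log (4 / 3) * Real.log n + x * (Real.log 3 * Real.sqrt (2 * Real.log n / Real.log (4 / 3) ^ 3))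

/-- the standard deviation -/
noncomputable def sdv (n : ℕ) : ℝ := Real.log 3 * Real.sqrt (2 * Real.log n / Real.log (4 / 3) ^ 3)

theorem bd_eq (x : ℝ) (n : ℕ) : bd x n = 2 / Real.log (4 / 3) * Real.log n + x * sdv n := rfl

theorem lpos : 0 < Real.log (4 / 3) := Real.log_pos (by norm_num)

theorem sdv_eq (n : ℕ) : sdv n = Real.log 3 * Real.sqrt (2 / Real.log (4 / 3) ^ 3) * Real.sqrt (Real.log n) := by
  unfold sdv
  have e : 2 * Real.log n / Real.log (4 / 3) ^ 3 = 2 / Real.log (4 / 3) ^ 3 * Real.log n := by ring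
  have := lpos
  rw [e, Real.sqrt_mul (by positivity), mul_assoc]

theorem gpos : 0 < Real.log 3 * Real.sqrt (2 / Real.log (4 / 3) ^ 3) := by
  have := lpos
  have : 0 < Real.log 3 := Real.log_pos (by norm_num)
  positivity

theorem sdv_nonneg (n : ℕ) : 0 ≤ sdv n := by
  rw [sdv_eq]
  exact mul_nonneg gpos.le (Real.sqrt_nonneg _)

theorem bd_mono {x y : ℝ} (h : x ≤ y) (n : ℕ) : bd x n ≤ bd y n := by
  rw [bd_eq, bd_eq]
  have := mul_le_mul_of_nonneg_right h (sdv_nonneg n)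
  linarith

/-- the thresholds at comparable points -/
theorem bd_near (x : ℝ) {η : ℝ} (hη : 0 < η) (C D : ℝ) : ∃ N0 : ℕ, 1 ≤ N0 ∧ ∀ n N : ℕ, N0 ≤ n → N0 ≤ N →
    |Real.log N - Real.log n| ≤ D → bd (x - η) n + C ≤ bd x N ∧ bd x N + C ≤ bd (x + η) n := by
  obtain ⟨γ, hγ⟩ : ∃ γ : ℝ, γ = Real.log 3 * Real.sqrt (2 / Real.log (4 / 3) ^ 3) := ⟨_, rfl⟩
  have hγ0 : 0 < γ := by rw [hγ]; exact gpos
  obtain ⟨α, hα⟩ : ∃ α : ℝ, α = 2 / Real.log (4 / 3) := ⟨_, rfl⟩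
  have hα0 : 0 < α := by rw [hα]; have := lpos; positivity
  obtain ⟨N1, hN1⟩ := exists_nat_ge (Real.exp (((|C| + α * |D| + |x| * γ * Real.sqrt |D|) / (η * γ)) ^ 2))
  refine ⟨N1 + 1, by omega, fun n N hn hN hD => ?_⟩
  have hn1 : (1 : ℝ) ≤ n := by exact_mod_cast (by omega : 1 ≤ n)
  have hN1' : (1 : ℝ) ≤ N := by exact_mod_cast (by omega : 1 ≤ N)
  have hln : 0 ≤ Real.log n := Real.log_nonneg hn1
  have hlN : 0 ≤ Real.log N := Real.log_nonneg hN1'
  have hD0 : 0 ≤ D := (abs_nonneg _).trans hD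
  rw [abs_of_nonneg hD0] at hN1
  have h1 : (|C| + α * D + |x| * γ * Real.sqrt D) / (η * γ) ≤ Real.sqrt (Real.log n) := by
    apply Real.le_sqrt_of_sq_le
    rw [← Real.log_exp (((|C| + α * D + |x| * γ * Real.sqrt D) / (η * γ)) ^ 2)]
    apply Real.log_le_log (Real.exp_pos _)
    exact hN1.trans (by exact_mod_cast (by omega : N1 ≤ n))
  rw [div_le_iff₀ (by positivity)] at h1
  -- square roots
  have h2 : |Real.sqrt (Real.log N) - Real.sqrt (Real.log n)| ≤ Real.sqrt D := by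
    have key : ∀ u v : ℝ, 0 ≤ u → 0 ≤ v → u - v ≤ D → Real.sqrt u - Real.sqrt v ≤ Real.sqrt D := by
      intro u v hu hv huv
      have h3 : Real.sqrt u ≤ Real.sqrt (v + D) := Real.sqrt_le_sqrt (by linarith)
      have h4 : Real.sqrt (v + D) ≤ Real.sqrt v + Real.sqrt D := by
        rw [Real.sqrt_le_left (by positivity)]
        have e1 := Real.sq_sqrt hv
        have e2 := Real.sq_sqrt hD0
        have e3 : 0 ≤ Real.sqrt v * Real.sqrt D := by positivity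
        have e4 : (Real.sqrt v + Real.sqrt D) ^ 2 = Real.sqrt v ^ 2 + Real.sqrt D ^ 2 + 2 * (Real.sqrt v * Real.sqrt D) := by ring
        rw [e4, e1, e2]
        linarith
      linarith
    rw [abs_le]
    have h5 := abs_le.1 hD
    constructor
    · have := key _ _ hln hlN (by linarith [h5.1]); linarith
    · exact key _ _ hlN hln h5.2
  rw [bd_eq, bd_eq, bd_eq, sdv_eq, sdv_eq, ← hγ, ← hα]
  obtain ⟨u, hu⟩ : ∃ u, u = Real.sqrt (Real.log N) := ⟨_, rfl⟩
  obtain ⟨v, hv⟩ : ∃ v, v = Real.sqrt (Real.log n) := ⟨_, rfl⟩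
  rw [← hu, ← hv] at h2
  rw [← hu, ← hv]
  rw [← hv] at h1
  have h3 : |α * (Real.log N - Real.log n)| ≤ α * D := by
    rw [abs_mul, abs_of_pos hα0]
    exact mul_le_mul_of_nonneg_left hD hα0.le
  have h4 : |x * γ * (u - v)| ≤ |x| * γ * Real.sqrt D := by
    rw [abs_mul, abs_mul, abs_of_pos hγ0]
    exact mul_le_mul_of_nonneg_left h2 (by positivity)
  have h5 := abs_le.1 h3
  have h6 := abs_le.1 h4
  have h7 := le_abs_self C
  constructor
  · have : α * Real.log N + x * (γ * u) - (α * Real.log n + (x - η) * (γ * v))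
        = α * (Real.log N - Real.log n) + x * γ * (u - v) + v * (η * γ) := by ring
    linarith [h5.1, h6.1]
  · have : α * Real.log n + (x + η) * (γ * v) - (α * Real.log N + x * (γ * u))
        = -(α * (Real.log N - Real.log n)) - x * γ * (u - v) + v * (η * γ) := by ring
    linarith [h5.2, h6.2]

theorem cnt_diff {P Q : ℕ → Prop} (h : ∀ n, 1 ≤ n → Q n → P n) (N : ℕ) :
    cnt (fun n => P n ∧ ¬ Q n) N = cnt P N - cnt Q N := by
  classical
  rw [cnt_eq, cnt_eq, cnt_eq]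
  have h1 : (Icc 1 N).filter (fun n => P n ∧ ¬ Q n) = (Icc 1 N).filter P \ (Icc 1 N).filter Q := by
    ext n
    simp only [mem_filter, Finset.mem_sdiff]
    tauto
  have h2 : (Icc 1 N).filter Q ⊆ (Icc 1 N).filter P := by
    intro n hn
    rw [mem_filter, mem_Icc] at hn ⊢
    exact ⟨hn.1, h n hn.1.1 hn.2⟩
  rw [h1, card_sdiff_of_subset h2, Nat.cast_sub (card_le_card h2)]

theorem ite_sub_le {P Q R : Prop} [Decidable P] [Decidable Q] [Decidable R] (h : ¬ (P ↔ Q) → R) (c : ℝ) :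
    |((if P then (1 : ℝ) else 0) - c) - ((if Q then 1 else 0) - c)| ≤ if R then 1 else 0 := by
  by_cases hPQ : P ↔ Q
  · have e : ((if P then (1 : ℝ) else 0) - c) - ((if Q then 1 else 0) - c) = 0 := by
      by_cases hP : P
      · rw [if_pos hP, if_pos (hPQ.1 hP)]; ring
      · rw [if_neg hP, if_neg (fun hQ => hP (hPQ.2 hQ))]; ring
    rw [e, abs_zero]
    split_ifs <;> norm_num
  · rw [if_pos (h hPQ)]
    split_ifs <;> rw [abs_le] <;> constructor <;> linarith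

theorem sum_inj {F : ℤ → ℝ} (hF : ∀ n, 0 ≤ F n) {u : ℤ → ℤ} (hu : Function.Injective u) {X Y : ℕ}
    (h : ∀ n : ℤ, 1 ≤ n → n ≤ X → 1 ≤ u n ∧ u n ≤ Y) : ∑ n ∈ Icc (1 : ℤ) X, F (u n) ≤ ∑ n ∈ Icc (1 : ℤ) Y, F n := by
  rw [← sum_image (g := u) (f := F) (fun a _ b _ hab => hu hab)]
  apply sum_le_sum_of_subset_of_nonneg
  · intro y hy
    rw [mem_image] at hy
    obtain ⟨n, hn, rfl⟩ := hy
    rw [mem_Icc] at hn ⊢
    exact h n hn.1 hn.2
  · intro n _ _; exact hF n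

theorem Phi_le_one (x : ℝ) : Phi x ≤ 1 := by
  unfold Pool.Agent.H499R2.ND.Phi
  exact MeasureTheory.measureReal_le_one

theorem Phi_nonneg (x : ℝ) : 0 ≤ Phi x := by
  unfold Pool.Agent.H499R2.ND.Phi
  exact MeasureTheory.measureReal_nonneg

theorem Phi_lt {x y : ℝ} (h : y < x) : Phi y < Phi x := by
  have h1 : Set.Iic x = Set.Iic y ∪ Set.Ioc y x := (Set.Iic_union_Ioc_eq_Iic h.le).symm
  unfold Pool.Agent.H499R2.ND.Phi
  rw [h1, MeasureTheory.measureReal_union (Set.disjoint_left.2 fun z h2 h3 => by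
    rw [Set.mem_Iic] at h2; rw [Set.mem_Ioc] at h3; linarith [h3.1]) measurableSet_Ioc]
  have h2 : 0 < (ProbabilityTheory.gaussianReal 0 1).real (Set.Ioc y x) := by
    rw [MeasureTheory.measureReal_def, ENNReal.toReal_pos_iff]
    refine ⟨?_, MeasureTheory.measure_lt_top _ _⟩
    rw [pos_iff_ne_zero]
    intro h0
    have h3 := ProbabilityTheory.gaussianReal_absolutelyContinuous' 0 (one_ne_zero) h0
    rw [Real.volume_Ioc, ENNReal.ofReal_eq_zero] at h3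
    linarith
  linarith

/-! ### functions constant on trajectories that are at the same time at the same point -/

theorem sT_two {s : ℤ} {f : ℤ → ℝ} (hf : f ∈ SameT s) : (fun x => f (2 * x)) ∈ SameT s := by
  refine ⟨fun x => hf.1 _, fun j x y h => hf.2 (j + 1) _ _ ?_⟩
  have e : ∀ x : ℤ, Tz s (2 * x) = x := by
    intro x
    unfold Tz
    rw [if_pos (by omega)]
    omega
  rw [Function.iterate_succ_apply, Function.iterate_succ_apply, e, e, h]

theorem sT_three {s : ℤ} (hs : s = 1 ∨ s = -1) {f : ℤ → ℝ} (hf : f ∈ SameT s) {x : ℤ} (hx : x % 2 = 1) :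
    f (3 * x + s) = f x := by
  refine hf.2 1 _ _ ?_
  rw [Function.iterate_one]
  unfold Tz
  rw [if_neg (by omega : ¬ x % 2 = 0), if_pos (by rcases hs with rfl | rfl <;> omega)]

theorem locT {s : ℤ} (hs : s = 1 ∨ s = -1) {κ : ℝ} (hκ : 0 < κ) (j : ℕ) (c : ℤ) (hc : c % 2 = 1) (h : ℤ) (hh : |h| ≤ j) :
    ∃ X0 : ℕ, 1 ≤ X0 ∧ ∀ X : ℕ, X0 ≤ X → ∀ f ∈ SameT s, ∑ n ∈ Icc (1 : ℤ) X, |f (c * n + h) - f (c * n)| ≤ κ * X := by
  have hodd : Odd s := by rcases hs with rfl | rfl <;> decide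
  have hss : s * s = 1 := by rcases hs with rfl | rfl <;> norm_num
  obtain ⟨θ, hθ, -, M0, hM0, H⟩ := lc hodd hss (show 0 < min κ 1 from lt_min hκ one_pos) (min_le_right _ _)
  obtain ⟨M1, hM1⟩ := exists_nat_ge ((j : ℝ) ^ (1 / θ))
  refine ⟨M0 + M1, by omega, fun X hX f hf => ?_⟩
  have h1 : |(h : ℝ)| ≤ (X : ℝ) ^ θ := by
    have h2 : (j : ℝ) ^ (1 / θ) ≤ X := hM1.trans (by exact_mod_cast (by omega : M1 ≤ X))
    have h3 : ((j : ℝ) ^ (1 / θ)) ^ θ ≤ (X : ℝ) ^ θ := Real.rpow_le_rpow (by positivity) h2 hθ.le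
    rw [← Real.rpow_mul (Nat.cast_nonneg _), one_div, inv_mul_cancel₀ hθ.ne', Real.rpow_one] at h3
    have h4 : |(h : ℝ)| ≤ j := by exact_mod_cast hh
    linarith
  have h2 := H X (by omega) f hf c hc 0 h h1
  rw [sum_cast]
  simp only [zero_add] at h2
  exact h2.trans (mul_le_mul_of_nonneg_right (min_le_left _ _) (Nat.cast_nonneg _))

theorem dil3T {s : ℤ} (hs : s = 1 ∨ s = -1) {κ : ℝ} (hκ : 0 < κ) : ∃ X0 : ℕ, ∀ X : ℕ, X0 ≤ X → ∀ f ∈ SameT s,
    ∑ n ∈ Icc (1 : ℤ) X, |f (3 * n) - f n| ≤ κ * X := by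
  obtain ⟨X0, hX0, h1⟩ := locT hs (show 0 < κ / 4 by positivity) 1 3 (by norm_num) s (by rcases hs with rfl | rfl <;> simp)
  obtain ⟨X1, hX1⟩ := exists_nat_ge (4 * X0 / κ)
  have key : ∀ X : ℕ, ∀ f ∈ SameT s, ∑ n ∈ Icc (1 : ℤ) X, |f (3 * n) - f n| ≤ κ / 2 * X + 2 * X0 := by
    intro X
    induction X using Nat.strong_induction_on with
    | _ X ih =>
      intro f hf
      have hb : ∀ n : ℤ, |f (3 * n) - f n| ≤ 2 := by
        intro n
        have a1 := abs_le.1 (hf.1 (3 * n))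
        have a2 := abs_le.1 (hf.1 n)
        rw [abs_le]; constructor <;> linarith [a1.1, a1.2, a2.1, a2.2]
      rcases Nat.lt_or_ge X X0 with hX | hX
      · have h2 : ∑ n ∈ Icc (1 : ℤ) X, |f (3 * n) - f n| ≤ 2 * X := by
          refine (sum_le_card_nsmul _ _ _ (fun n _ => hb n)).trans ?_
          rw [Int.card_Icc, nsmul_eq_mul, add_sub_cancel_right, Int.toNat_natCast]
          linarith
        have h3 : (X : ℝ) ≤ X0 := by exact_mod_cast hX.le
        have h4 : 0 ≤ κ / 2 * X := by positivity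
        exact h2.trans (by linarith)
      · have h2 := h1 X hX f hf
        have h3 := ih (X / 2) (by omega) _ (sT_two hf)
        have h4 : ∑ n ∈ Icc (1 : ℤ) X, |f (3 * n) - f n|
            ≤ ∑ n ∈ Icc (1 : ℤ) X, |f (3 * n + s) - f (3 * n)| +
              ∑ m ∈ Icc (1 : ℤ) ((X / 2 : ℕ) : ℤ), |f (2 * (3 * m)) - f (2 * m)| := by
          have h5 : ∑ m ∈ Icc (1 : ℤ) ((X / 2 : ℕ) : ℤ), |f (2 * (3 * m)) - f (2 * m)|
              = ∑ n ∈ (Icc (1 : ℤ) X).filter (fun n => n % 2 = 0), |f (3 * n) - f n| := by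
            have e1 : (Icc (1 : ℤ) X).filter (fun n => n % 2 = 0) = (Icc (1 : ℤ) ((X / 2 : ℕ) : ℤ)).image (fun m => 2 * m) := by
              ext n
              rw [mem_filter, mem_Icc, mem_image]
              constructor
              · rintro ⟨⟨a1, a2⟩, a3⟩
                exact ⟨n / 2, by rw [mem_Icc]; omega, by omega⟩
              · rintro ⟨m, hm, rfl⟩
                rw [mem_Icc] at hm
                omega
            rw [e1, sum_image (by intro a _ b _ hab; simpa using hab)]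
            apply sum_congr rfl
            intro m _
            have e2 : 3 * (2 * m) = 2 * (3 * m) := by ring
            rw [e2]
          rw [h5, ← sum_filter_add_sum_filter_not (Icc (1 : ℤ) X) (fun n : ℤ => n % 2 = 0) (fun n => |f (3 * n) - f n|)]
          have h6 : ∑ n ∈ (Icc (1 : ℤ) X).filter (fun n => ¬ n % 2 = 0), |f (3 * n) - f n|
              ≤ ∑ n ∈ Icc (1 : ℤ) X, |f (3 * n + s) - f (3 * n)| := by
            have e3 : ∑ n ∈ (Icc (1 : ℤ) X).filter (fun n => ¬ n % 2 = 0), |f (3 * n) - f n|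
                = ∑ n ∈ (Icc (1 : ℤ) X).filter (fun n => ¬ n % 2 = 0), |f (3 * n + s) - f (3 * n)| := by
              apply sum_congr rfl
              intro n hn
              rw [mem_filter] at hn
              rw [sT_three hs hf (by omega), abs_sub_comm]
            rw [e3]
            exact sum_le_sum_of_subset_of_nonneg (filter_subset _ _) fun _ _ _ => abs_nonneg _
          linarith
        have h5 : ((X / 2 : ℕ) : ℝ) ≤ X / 2 := by
          have := @Nat.cast_div_le ℝ _ _ _ X 2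
          exact_mod_cast this
        have h6 : κ / 2 * ((X / 2 : ℕ) : ℝ) ≤ κ / 2 * (X / 2) := mul_le_mul_of_nonneg_left h5 (by positivity)
        linarith
  refine ⟨X1, fun X hX f hf => (key X f hf).trans ?_⟩
  have h2 : 4 * (X0 : ℝ) / κ ≤ X := hX1.trans (by exact_mod_cast hX)
  rw [div_le_iff₀ hκ] at h2
  linarith

/-! ### graded families -/

/-- A graded family of events: `E a B n` (`a` a residue modulo `m`, `B` a bound) -/
structure GF (s : ℤ) (m : ℕ) where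
  E : ℤ → ℝ → ℤ → Prop
  mono : ∀ a B B' n, B ≤ B' → E a B n → E a B' n
  same : ∀ a B (j : ℕ) (x y : ℤ), (Tz s)^[j] x = (Tz s)^[j] y → (E a B x → E a B y)
  two : ∀ a B n, E a B (2 * n) ↔ E (a - 1) (B - 1) n
  shift : ∀ a B n, E (a - m) B n ↔ E a B n

namespace GF

variable {s : ℤ} {m : ℕ} (G : GF s m)

/-- the normal law in natural density -/
def Law (δ : ℝ) : Prop := ∀ (a : ℤ) (x : ℝ), Dn (fun n => G.E a (bd x n) n) (δ * Phi x / m)

theorem sand {a : ℤ} {B1 B2 L U : ℝ} {n : ℤ} (h1 : L ≤ B1) (h2 : B1 ≤ U) (h3 : L ≤ B2) (h4 : B2 ≤ U)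
    (h : ¬ (G.E a B1 n ↔ G.E a B2 n)) : G.E a U n ∧ ¬ G.E a L n := by
  by_cases h5 : G.E a B1 n
  · have h6 : ¬ G.E a B2 n := fun h6 => h ⟨fun _ => h6, fun _ => h5⟩
    exact ⟨G.mono _ _ _ _ h2 h5, fun h7 => h6 (G.mono _ _ _ _ h3 h7)⟩
  · have h6 : G.E a B2 n := by
      by_contra h6
      exact h ⟨fun h7 => absurd h7 h5, fun h7 => absurd h7 h6⟩
    exact ⟨G.mono _ _ _ _ h4 h6, fun h7 => h5 (G.mono _ _ _ _ h1 h7)⟩

open Classical in
/-- the balanced indicator function of a bound -/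
noncomputable def gB (a : ℤ) (c B : ℝ) (x : ℤ) : ℝ := (if G.E a B x then 1 else 0) - c

theorem gB_same (a : ℤ) {c : ℝ} (h0 : 0 ≤ c) (h1 : c ≤ 1) (B : ℝ) : G.gB a c B ∈ SameT s := by
  constructor
  · intro x
    unfold gB
    rw [abs_le]
    split_ifs <;> constructor <;> linarith
  · intro j x y hxy
    unfold gB
    by_cases h7 : G.E a B x
    · rw [if_pos h7, if_pos (G.same _ _ j x y hxy h7)]
    · rw [if_neg h7, if_neg (fun h8 => h7 (G.same _ _ j y x hxy.symm h8))]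

/-- the integers of sign `s` for which the event takes place, the bound being the threshold of the normal law -/
def LS (a : ℤ) (x : ℝ) : Set ℤ := {z | 0 < s * z ∧ G.E a (bd x (s * z).toNat) (s * z)}

open Classical in
theorem bal_nat (hs : s = 1 ∨ s = -1) (a : ℤ) (x c : ℝ) {n : ℕ} (hn : 1 ≤ n) :
    bal s (G.LS a x) c (n : ℕ) = (if G.E a (bd x n) n then 1 else 0) - c := by
  unfold bal ind LS
  have h : (0 : ℤ) < n := by exact_mod_cast hn
  have hss : s * (s * (n : ℤ)) = n := by rcases hs with rfl | rfl <;> ring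
  simp only [Set.mem_ofPred_eq, hss, h, true_and, Int.toNat_natCast]

open Classical in
theorem gB_nat (a : ℤ) (c B : ℝ) (n : ℕ) : G.gB a c B (n : ℕ) = (if G.E a B n then 1 else 0) - c := rfl

variable {G} {δ : ℝ}

/-- few points are near the threshold -/
theorem stab (hlaw : G.Law δ) (a : ℤ) (x : ℝ) {κ : ℝ}
    (hκ : 0 < κ) : ∃ η : ℝ, 0 < η ∧ ∃ N0 : ℕ, ∀ N : ℕ, N0 ≤ N →
      cnt (fun n => G.E a (bd (x + η) n) n ∧ ¬ G.E a (bd (x - η) n) n) N ≤ κ * N := by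
  have hc : Continuous (fun y => δ * Phi y / m) := (continuous_const.mul Phi_continuous).div_const _
  obtain ⟨η', hη', h1⟩ := Metric.continuous_iff.1 hc x (κ / 4) (by positivity)
  obtain ⟨η, rfl⟩ : ∃ η, η' = 2 * η := ⟨η' / 2, by ring⟩
  have hη : 0 < η := by linarith
  have h2 := h1 (x + η) (by rw [Real.dist_eq, add_sub_cancel_left, abs_of_pos hη]; linarith)
  have h3 := h1 (x - η) (by rw [Real.dist_eq, show x - η - x = -η by ring, abs_neg, abs_of_pos hη]; linarith)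
  rw [Real.dist_eq] at h2 h3
  have h2' := abs_lt.1 h2
  have h3' := abs_lt.1 h3
  have h4 := (hlaw a (x + η)).eventually (gt_mem_nhds (show δ * Phi (x + η) / m < δ * Phi (x + η) / m + κ / 4 by linarith))
  have h5 := (hlaw a (x - η)).eventually (lt_mem_nhds (show δ * Phi (x - η) / m - κ / 4 < δ * Phi (x - η) / m by linarith))
  obtain ⟨N0, hN0⟩ := eventually_atTop.1 (h4.and h5)
  refine ⟨η, hη, N0 + 1, fun N hN => ?_⟩
  obtain ⟨h6, h7⟩ := hN0 N (by omega)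
  have hN : (0 : ℝ) < N := by exact_mod_cast (by omega : 0 < N)
  rw [cnt_diff (fun n _ => G.mono _ _ _ _ (bd_mono (by linarith) n))]
  rw [div_lt_iff₀ hN] at h6
  rw [lt_div_iff₀ hN] at h7
  have h8 : (δ * Phi (x + η) / m + κ / 4) - (δ * Phi (x - η) / m - κ / 4) ≤ κ := by linarith [h2'.2, h3'.1]
  have h9 := mul_le_mul_of_nonneg_right h8 hN.le
  linarith

/-- comparison with a fixed bound -/
theorem cmpB (hs : s = 1 ∨ s = -1) (hlaw : G.Law δ) (a : ℤ) (x c : ℝ) {κ : ℝ}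
    (hκ : 0 < κ) : ∃ N0 : ℕ, ∀ N : ℕ, N0 ≤ N →
      ∑ n ∈ Icc (1 : ℤ) N, |bal s (G.LS a x) c n - G.gB a c (bd x N) n| ≤ κ * N := by
  classical
  obtain ⟨η, hη, N1, h1⟩ := stab hlaw a x (show 0 < κ / 4 by positivity)
  obtain ⟨κ', hκ'⟩ : ∃ κ', κ' = min (κ / 4) 1 := ⟨_, rfl⟩
  have hκ0 : 0 < κ' := by rw [hκ']; exact lt_min (by positivity) one_pos
  have hκ1 : κ' ≤ 1 := by rw [hκ']; exact min_le_right _ _
  have hκ2 : κ' ≤ κ / 4 := by rw [hκ']; exact min_le_left _ _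
  obtain ⟨N2, hN2, h2⟩ := bd_near x hη 0 (-Real.log κ')
  obtain ⟨N3, hN3⟩ := exists_nat_ge (4 * N2 / κ)
  refine ⟨N1 + N2 + N3, fun N hN => ?_⟩
  have hNp : (0 : ℝ) < N := by exact_mod_cast (by omega : 0 < N)
  rw [sum_cast]
  have key : ∀ n ∈ Icc 1 N, |bal s (G.LS a x) c (n : ℕ) - G.gB a c (bd x N) (n : ℕ)|
      ≤ (if (n : ℝ) ≤ κ' * N + N2 then 1 else 0)
        + (if (G.E a (bd (x + η) n) n ∧ ¬ G.E a (bd (x - η) n) n) then 1 else 0) := by
    intro n hn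
    rw [mem_Icc] at hn
    rw [G.bal_nat hs a x c hn.1, G.gB_nat a c _ n]
    by_cases h3 : (n : ℝ) ≤ κ' * N + N2
    · rw [if_pos h3]
      have h4 : |((if G.E a (bd x n) n then (1 : ℝ) else 0) - c) - ((if G.E a (bd x N) n then 1 else 0) - c)| ≤ 1 := by
        have := ite_sub_le (P := G.E a (bd x n) n) (Q := G.E a (bd x N) n) (R := True) (fun _ => trivial) c
        simpa using this
      have h5 : (0 : ℝ) ≤ (if (G.E a (bd (x + η) n) n ∧ ¬ G.E a (bd (x - η) n) n) then 1 else 0) := by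
        split_ifs <;> norm_num
      linarith
    · rw [if_neg h3, zero_add]
      push Not at h3
      have hn2 : N2 ≤ n := by
        have h4 : (N2 : ℝ) ≤ n := by
          have : 0 ≤ κ' * N := by positivity
          linarith
        exact_mod_cast h4
      have hnp : (0 : ℝ) < n := by exact_mod_cast hn.1
      have h4 : |Real.log N - Real.log n| ≤ -Real.log κ' := by
        have h5 : Real.log n ≤ Real.log N := Real.log_le_log hnp (by exact_mod_cast hn.2)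
        rw [abs_of_nonneg (by linarith)]
        have h6 : Real.log (κ' * N) ≤ Real.log n := by
          apply Real.log_le_log (by positivity)
          have : (0 : ℝ) ≤ N2 := Nat.cast_nonneg _
          linarith
        rw [Real.log_mul hκ0.ne' hNp.ne'] at h6
        linarith
      have h5 := h2 n N hn2 (by omega) h4
      rw [add_zero, add_zero] at h5
      exact ite_sub_le (fun h => G.sand (bd_mono (by linarith) n) (bd_mono (by linarith) n) h5.1 h5.2 h) c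
  refine (sum_le_sum key).trans ?_
  rw [sum_add_distrib]
  have e1 : ∑ n ∈ Icc 1 N, (if (n : ℝ) ≤ κ' * N + N2 then (1 : ℝ) else 0) = cnt (fun n => (n : ℝ) ≤ κ' * N + N2) N := by
    rw [cnt_eq, Finset.sum_boole]
  have e2 : ∑ n ∈ Icc 1 N, (if (G.E a (bd (x + η) n) n ∧ ¬ G.E a (bd (x - η) n) n) then (1 : ℝ) else 0)
      = cnt (fun n => G.E a (bd (x + η) n) n ∧ ¬ G.E a (bd (x - η) n) n) N := by
    rw [cnt_eq, Finset.sum_boole]
  rw [e1, e2]
  have h6 := cnt_small (show 0 ≤ κ' * N + N2 by positivity) N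
  have h7 := h1 N (by omega)
  have h8 : 4 * (N2 : ℝ) / κ ≤ N := hN3.trans (by exact_mod_cast (by omega : N3 ≤ N))
  rw [div_le_iff₀ hκ] at h8
  have h9 : κ' * N ≤ κ / 4 * N := mul_le_mul_of_nonneg_right hκ2 hNp.le
  linarith

theorem loc_X (hs : s = 1 ∨ s = -1) (hlaw : G.Law δ) (a : ℤ) (x : ℝ) {c : ℝ} (h0 : 0 ≤ c) (h1 : c ≤ 1)
    {κ : ℝ} (hκ : 0 < κ) (j : ℕ) : ∃ X0 : ℕ, ∀ X : ℕ, X0 ≤ X →
      ∑ n ∈ Icc (1 : ℤ) X, |bal s (G.LS a x) c (n + j) - bal s (G.LS a x) c n| ≤ κ * X := by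
  obtain ⟨N1, hN1⟩ := cmpB hs hlaw a x c (show 0 < κ / 5 by positivity)
  obtain ⟨N2, -, hN2⟩ := locT hs (show 0 < κ / 5 by positivity) j 1 (by norm_num) j (by simp)
  refine ⟨N1 + N2 + j, fun X hX => ?_⟩
  have h2 := hN1 (X + j) (by omega)
  have h3 := hN2 X (by omega) _ (G.gB_same a h0 h1 (bd x (X + j : ℕ)))
  simp only [one_mul] at h3
  obtain ⟨f, hf⟩ : ∃ f, f = bal s (G.LS a x) c := ⟨_, rfl⟩
  obtain ⟨g, hg⟩ : ∃ g, g = G.gB a c (bd x (X + j : ℕ)) := ⟨_, rfl⟩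
  rw [← hf, ← hg] at h2
  rw [← hg] at h3
  rw [← hf]
  have h4 : ∑ n ∈ Icc (1 : ℤ) X, |f (n + j) - g (n + j)| ≤ ∑ n ∈ Icc (1 : ℤ) ((X + j : ℕ) : ℤ), |f n - g n| :=
    sum_inj (F := fun n => |f n - g n|) (u := fun n => n + j) (fun _ => abs_nonneg _) (add_left_injective _)
      (fun n a1 a2 => by push_cast; constructor <;> omega)
  have h5 : ∑ n ∈ Icc (1 : ℤ) X, |f n - g n| ≤ ∑ n ∈ Icc (1 : ℤ) ((X + j : ℕ) : ℤ), |f n - g n| :=
    sum_inj (F := fun n => |f n - g n|) (u := fun n => n) (fun _ => abs_nonneg _) (fun _ _ h => h)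
      (fun n a1 a2 => by push_cast; constructor <;> omega)
  have h6 : ∑ n ∈ Icc (1 : ℤ) X, |f (n + j) - f n| ≤ ∑ n ∈ Icc (1 : ℤ) X, |f (n + j) - g (n + j)|
      + ∑ n ∈ Icc (1 : ℤ) X, |g (n + j) - g n| + ∑ n ∈ Icc (1 : ℤ) X, |f n - g n| := by
    rw [← sum_add_distrib, ← sum_add_distrib]
    apply sum_le_sum
    intro n _
    have e1 := abs_sub_le (f (n + j)) (g (n + j)) (f n)
    have e2 := abs_sub_le (g (n + j)) (g n) (f n)
    rw [abs_sub_comm (g n) (f n)] at e2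
    linarith
  have h7 : ((X + j : ℕ) : ℝ) ≤ 2 * X := by
    have : X + j ≤ 2 * X := by omega
    exact_mod_cast this
  have h8 : κ / 5 * ((X + j : ℕ) : ℝ) ≤ κ / 5 * (2 * X) := mul_le_mul_of_nonneg_left h7 (by positivity)
  linarith

theorem dil3_X (hs : s = 1 ∨ s = -1) (hlaw : G.Law δ) (a : ℤ) (x : ℝ) {c : ℝ} (h0 : 0 ≤ c) (h1 : c ≤ 1)
    {κ : ℝ} (hκ : 0 < κ) : ∃ X0 : ℕ, ∀ X : ℕ, X0 ≤ X →
      ∑ n ∈ Icc (1 : ℤ) X, |bal s (G.LS a x) c ((3 : ℕ) * n) - bal s (G.LS a x) c n| ≤ κ * X := by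
  obtain ⟨N1, hN1⟩ := cmpB hs hlaw a x c (show 0 < κ / 7 by positivity)
  obtain ⟨N2, hN2⟩ := dil3T hs (show 0 < κ / 7 by positivity)
  refine ⟨N1 + N2, fun X hX => ?_⟩
  have h2 := hN1 (3 * X) (by omega)
  have h3 := hN2 X (by omega) _ (G.gB_same a h0 h1 (bd x (3 * X : ℕ)))
  obtain ⟨f, hf⟩ : ∃ f, f = bal s (G.LS a x) c := ⟨_, rfl⟩
  obtain ⟨g, hg⟩ : ∃ g, g = G.gB a c (bd x (3 * X : ℕ)) := ⟨_, rfl⟩
  rw [← hf, ← hg] at h2
  rw [← hg] at h3
  rw [← hf]
  have h4 : ∑ n ∈ Icc (1 : ℤ) X, |f (3 * n) - g (3 * n)| ≤ ∑ n ∈ Icc (1 : ℤ) ((3 * X : ℕ) : ℤ), |f n - g n| :=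
    sum_inj (F := fun n => |f n - g n|) (u := fun n => 3 * n) (fun _ => abs_nonneg _) (fun a b h => by
      simp only at h; omega)
      (fun n a1 a2 => by push_cast; constructor <;> omega)
  have h5 : ∑ n ∈ Icc (1 : ℤ) X, |f n - g n| ≤ ∑ n ∈ Icc (1 : ℤ) ((3 * X : ℕ) : ℤ), |f n - g n| :=
    sum_inj (F := fun n => |f n - g n|) (u := fun n => n) (fun _ => abs_nonneg _) (fun _ _ h => h)
      (fun n a1 a2 => by push_cast; constructor <;> omega)
  have h6 : ∑ n ∈ Icc (1 : ℤ) X, |f ((3 : ℕ) * n) - f n| ≤ ∑ n ∈ Icc (1 : ℤ) X, |f (3 * n) - g (3 * n)|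
      + ∑ n ∈ Icc (1 : ℤ) X, |g (3 * n) - g n| + ∑ n ∈ Icc (1 : ℤ) X, |f n - g n| := by
    rw [← sum_add_distrib, ← sum_add_distrib]
    apply sum_le_sum
    intro n _
    have e0 : ((3 : ℕ) : ℤ) * n = 3 * n := by push_cast; rfl
    rw [e0]
    have e1 := abs_sub_le (f (3 * n)) (g (3 * n)) (f n)
    have e2 := abs_sub_le (g (3 * n)) (g n) (f n)
    rw [abs_sub_comm (g n) (f n)] at e2
    linarith
  have h8 : κ / 7 * ((3 * X : ℕ) : ℝ) = 3 * (κ / 7 * X) := by push_cast; ring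
  rw [h8] at h2
  linarith

theorem E_pow (e : ℕ) : ∀ {a : ℤ} {B : ℝ} {n : ℤ}, (G.E a B (2 ^ e * n) ↔ G.E (a - e) (B - e) n) := by
  induction e with
  | zero => intro a B n; simp
  | succ e ih =>
    intro a B n
    have e1 : 2 ^ (e + 1) * n = 2 * (2 ^ e * n) := by rw [pow_succ]; ring
    rw [e1, G.two, ih]
    have e2 : a - 1 - (e : ℤ) = a - ((e + 1 : ℕ) : ℤ) := by push_cast; ring
    have e3 : B - 1 - (e : ℝ) = B - ((e + 1 : ℕ) : ℝ) := by push_cast; ring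
    rw [e2, e3]

theorem dil2_X (hs : s = 1 ∨ s = -1) (hlaw : G.Law δ) (a : ℤ) (x c : ℝ)
    {κ : ℝ} (hκ : 0 < κ) : ∃ X0 : ℕ, ∀ X : ℕ, X0 ≤ X →
      ∑ n ∈ Icc (1 : ℤ) X, |bal s (G.LS a x) c ((2 ^ m : ℕ) * n) - bal s (G.LS a x) c n| ≤ κ * X := by
  classical
  obtain ⟨η, hη, N1, h1⟩ := stab hlaw a x (show 0 < κ / 2 by positivity)
  obtain ⟨N2, hN2, h2⟩ := bd_near x hη m (m * Real.log 2)
  obtain ⟨N3, hN3⟩ := exists_nat_ge (2 * N2 / κ)
  refine ⟨N1 + N3, fun X hX => ?_⟩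
  rw [sum_cast]
  have key : ∀ n ∈ Icc 1 X, |bal s (G.LS a x) c ((2 ^ m : ℕ) * (n : ℕ)) - bal s (G.LS a x) c (n : ℕ)|
      ≤ (if (n : ℝ) ≤ N2 then 1 else 0)
        + (if (G.E a (bd (x + η) n) n ∧ ¬ G.E a (bd (x - η) n) n) then 1 else 0) := by
    intro n hn
    rw [mem_Icc] at hn
    have e0 : ((2 ^ m : ℕ) : ℤ) * ((n : ℕ) : ℤ) = ((2 ^ m * n : ℕ) : ℤ) := by push_cast; ring
    rw [e0, G.bal_nat hs a x c hn.1, G.bal_nat hs a x c (Nat.mul_pos (by positivity) hn.1)]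
    have e1 : G.E a (bd x (2 ^ m * n : ℕ)) ((2 ^ m * n : ℕ) : ℤ) ↔ G.E a (bd x (2 ^ m * n : ℕ) - m) n := by
      have e2 : ((2 ^ m * n : ℕ) : ℤ) = 2 ^ m * (n : ℤ) := by push_cast; ring
      rw [e2, E_pow m, G.shift]
    simp only [e1]
    by_cases h3 : (n : ℝ) ≤ N2
    · rw [if_pos h3]
      have h4 := ite_sub_le (P := G.E a (bd x (2 ^ m * n) - m) n) (Q := G.E a (bd x n) n) (R := True) (fun _ => trivial) c
      have h5 : (0 : ℝ) ≤ (if (G.E a (bd (x + η) n) n ∧ ¬ G.E a (bd (x - η) n) n) then 1 else 0) := by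
        split_ifs <;> norm_num
      rw [if_pos trivial] at h4
      linarith
    · rw [if_neg h3, zero_add]
      push Not at h3
      have hn2 : N2 ≤ n := by exact_mod_cast h3.le
      have hnp : (0 : ℝ) < n := by exact_mod_cast hn.1
      have h2m : (1 : ℕ) ≤ 2 ^ m := Nat.one_le_two_pow
      have h4 : |Real.log ((2 ^ m * n : ℕ) : ℝ) - Real.log n| ≤ m * Real.log 2 := by
        push_cast
        rw [Real.log_mul (by positivity) hnp.ne', Real.log_pow, add_sub_cancel_right, abs_of_nonneg]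
        have := Real.log_two_gt_d9
        positivity
      have h5 := h2 n (2 ^ m * n) hn2 (by nlinarith) h4
      have hm0 : (0 : ℝ) ≤ m := Nat.cast_nonneg _
      exact ite_sub_le (fun h => G.sand (by linarith [h5.1]) (by linarith [h5.2]) (bd_mono (by linarith) n) (bd_mono (by linarith) n) h) c
  refine (sum_le_sum key).trans ?_
  rw [sum_add_distrib]
  have e1 : ∑ n ∈ Icc 1 X, (if (n : ℝ) ≤ N2 then (1 : ℝ) else 0) = cnt (fun n => (n : ℝ) ≤ N2) X := by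
    rw [cnt_eq, Finset.sum_boole]
  have e2 : ∑ n ∈ Icc 1 X, (if (G.E a (bd (x + η) n) n ∧ ¬ G.E a (bd (x - η) n) n) then (1 : ℝ) else 0)
      = cnt (fun n => G.E a (bd (x + η) n) n ∧ ¬ G.E a (bd (x - η) n) n) X := by
    rw [cnt_eq, Finset.sum_boole]
  rw [e1, e2]
  have h6 := cnt_small (show (0 : ℝ) ≤ N2 by positivity) X
  have h7 := h1 X (by omega)
  have h8 : 2 * (N2 : ℝ) / κ ≤ X := hN3.trans (by exact_mod_cast (by omega : N3 ≤ X))
  rw [div_le_iff₀ hκ] at h8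
  linarith

/-- partial sums -/
theorem part_X (hs : s = 1 ∨ s = -1) (hlaw : G.Law δ) (a : ℤ) (x : ℝ) {κ : ℝ} (hκ : 0 < κ) :
    ∃ n0 : ℕ, ∀ n : ℕ, n0 ≤ n → |∑ l ∈ Icc 1 n, bal s (G.LS a x) (δ * Phi x / m) (l : ℕ)| ≤ κ * n := by
  classical
  have h1 := Metric.tendsto_atTop.1 (hlaw a x) κ hκ
  obtain ⟨n0, h1⟩ := h1
  refine ⟨n0 + 1, fun n hn => ?_⟩
  have h2 := h1 n (by omega)
  have hn : (0 : ℝ) < n := by exact_mod_cast (by omega : 0 < n)
  have e : ∑ l ∈ Icc 1 n, bal s (G.LS a x) (δ * Phi x / m) (l : ℕ)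
      = (cnt (fun n => G.E a (bd x n) n) n / n - δ * Phi x / m) * n := by
    have e1 : ∑ l ∈ Icc 1 n, bal s (G.LS a x) (δ * Phi x / m) (l : ℕ)
        = ∑ l ∈ Icc 1 n, ((if G.E a (bd x l) l then (1 : ℝ) else 0) - δ * Phi x / m) := by
      apply sum_congr rfl
      intro l hl
      rw [mem_Icc] at hl
      exact G.bal_nat hs a x _ hl.1
    rw [e1, sum_sub_distrib, Finset.sum_boole, ← cnt_eq, sum_const, Nat.card_Icc, Nat.add_sub_cancel, nsmul_eq_mul]
    field_simp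
  rw [e, abs_mul, abs_of_pos hn]
  rw [Real.dist_eq] at h2
  exact mul_le_mul_of_nonneg_right h2.le hn.le

theorem bal_abs' (s : ℤ) (S : Set ℤ) {c : ℝ} (h0 : 0 ≤ c) (h1 : c ≤ 1) (x : ℤ) : |bal s S c x| ≤ 1 :=
  Pool.Agent.W41.FU.bal_abs h0 h1 x

/-- small frequencies -/
theorem small_X (hs : s = 1 ∨ s = -1) (hlaw : G.Law δ) (a : ℤ) (x : ℝ) (h0 : 0 ≤ δ * Phi x / m) (h1 : δ * Phi x / m ≤ 1)
    {ε : ℝ} (hε : 0 < ε) {C : ℝ} (hC : 1 ≤ C) : ∃ N0 : ℕ, 1 ≤ N0 ∧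
    ∀ N : ℕ, N0 ≤ N → ∀ α : ℝ, |α| * N ≤ C → ‖EE (bal s (G.LS a x) (δ * Phi x / m)) N α‖ ≤ ε * N := by
  set K : ℝ := 1 + 2 * Real.pi * C with hK
  have hKp : 0 < K := by positivity
  obtain ⟨n0, h⟩ := part_X hs hlaw a x (show 0 < ε / (2 * K) by positivity)
  obtain ⟨n1, hn1⟩ := exists_nat_ge (2 * K * n0 / ε)
  refine ⟨n0 + n1 + 1, by omega, fun N hN α hα => ?_⟩
  have hN1 : (0 : ℝ) < N := by exact_mod_cast (by omega : 0 < N)
  obtain ⟨f, hf⟩ : ∃ f, f = bal s (G.LS a x) (δ * Phi x / m) := ⟨_, rfl⟩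
  have hf1 : ∀ n, |f n| ≤ 1 := by rw [hf]; exact bal_abs' _ _ h0 h1
  rw [← hf] at h ⊢
  have hb : ∀ n : ℕ, n ≤ N → |∑ l ∈ Icc 1 n, f (l : ℕ)| ≤ ε / (2 * K) * N + n0 := by
    intro n hn
    rcases le_or_gt n0 n with h1 | h1
    · refine (h n h1).trans ?_
      have : (n : ℝ) ≤ N := by exact_mod_cast hn
      have h2 : ε / (2 * K) * n ≤ ε / (2 * K) * N := mul_le_mul_of_nonneg_left this (by positivity)
      have h3 : (0 : ℝ) ≤ n0 := Nat.cast_nonneg _
      linarith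
    · have h2 : |∑ l ∈ Icc 1 n, f (l : ℕ)| ≤ n := by
        refine (abs_sum_le_sum_abs _ _).trans ?_
        refine (sum_le_card_nsmul _ _ 1 (fun l _ => hf1 _)).trans ?_
        rw [Nat.card_Icc, Nat.add_sub_cancel, nsmul_eq_mul, mul_one]
      have h6 : (n : ℝ) ≤ n0 := by exact_mod_cast h1.le
      have h7 : 0 ≤ ε / (2 * K) * N := by positivity
      linarith
  set B : ℝ := ε / (2 * K) * N + n0 with hB
  have hB0 : 0 ≤ B := by positivity
  rw [abel]
  refine (norm_sub_le _ _).trans ?_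
  have e1 : ‖((∑ n ∈ Icc 1 N, f (n : ℕ) : ℝ) : ℂ) * ee α (N + 1)‖ ≤ B := by
    rw [norm_mul, ee_norm, mul_one, Complex.norm_real, Real.norm_eq_abs]
    exact hb N le_rfl
  have e2 : ‖∑ n ∈ Icc 1 N, ((∑ m ∈ Icc 1 n, f (m : ℕ) : ℝ) : ℂ) * (ee α ((n : ℕ) + 1) - ee α (n : ℕ))‖
      ≤ 2 * Real.pi * C * B := by
    refine (norm_sum_le _ _).trans ?_
    have h1 : ∀ n ∈ Icc 1 N, ‖((∑ m ∈ Icc 1 n, f (m : ℕ) : ℝ) : ℂ) * (ee α ((n : ℕ) + 1) - ee α (n : ℕ))‖
        ≤ B * (2 * Real.pi * |α|) := by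
      intro n hn
      rw [norm_mul, Complex.norm_real, Real.norm_eq_abs]
      exact mul_le_mul (hb n (mem_Icc.1 hn).2) (ee_diff α n) (norm_nonneg _) hB0
    refine (sum_le_sum h1).trans ?_
    rw [sum_const, Nat.card_Icc, Nat.add_sub_cancel, nsmul_eq_mul]
    calc (N : ℝ) * (B * (2 * Real.pi * |α|)) = 2 * Real.pi * B * (|α| * N) := by ring
      _ ≤ 2 * Real.pi * B * C := mul_le_mul_of_nonneg_left hα (by positivity)
      _ = _ := by ring
  have e3 : K * B ≤ ε * N := by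
    have h1 : K * (ε / (2 * K) * N) = ε / 2 * N := by field_simp
    have h2 : 2 * K * n0 / ε ≤ N := hn1.trans (by exact_mod_cast (by omega : n1 ≤ N))
    rw [div_le_iff₀ hε] at h2
    rw [hB, mul_add, h1]
    linarith
  have e4 : B + 2 * Real.pi * C * B = K * B := by rw [hK]; ring
  linarith

theorem EE_cmp (f g : ℤ → ℝ) (N : ℕ) (α : ℝ) : ‖EE f N α‖ ≤ ‖EE g N α‖ + ∑ n ∈ Icc (1 : ℤ) N, |f n - g n| := by
  have h1 : EE f N α = EE g N α + ∑ n ∈ Icc 1 N, ((f (n : ℕ) - g (n : ℕ) : ℝ) : ℂ) * ee α (n : ℕ) := by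
    unfold EE
    rw [← sum_add_distrib]
    apply sum_congr rfl
    intro n _
    push_cast
    ring
  rw [h1, sum_cast]
  refine (norm_add_le _ _).trans ?_
  apply add_le_add_right
  refine (norm_sum_le _ _).trans ?_
  apply sum_le_sum
  intro n _
  rw [norm_mul, ee_norm, mul_one, Complex.norm_real, Real.norm_eq_abs]

/-- all frequencies -/
theorem fou_all (hs : s = 1 ∨ s = -1) (hlaw : G.Law δ) (a : ℤ) (x : ℝ) (h0 : 0 ≤ δ * Phi x / m) (h1 : δ * Phi x / m ≤ 1)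
    {ε : ℝ} (hε : 0 < ε) (hε1 : ε ≤ 1) : ∃ N0 : ℕ, 1 ≤ N0 ∧
    ∀ N : ℕ, N0 ≤ N → ∀ α : ℝ, ‖EE (bal s (G.LS a x) (δ * Phi x / m)) N α‖ ≤ ε * N := by
  have hodd : Odd s := by rcases hs with rfl | rfl <;> decide
  have hco : IsCoprime s 3 := by
    rcases hs with rfl | rfl
    · exact isCoprime_one_left
    · exact (isCoprime_one_left).neg_left
  have hss : s * s = 1 := by rcases hs with rfl | rfl <;> norm_num
  obtain ⟨C, hC, N1, hN1, hf⟩ := fourier hodd hco hss (show 0 < ε / 2 by positivity) (by linarith)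
  obtain ⟨N2, hN2, hs'⟩ := small_X hs hlaw a x h0 h1 hε hC
  obtain ⟨N3, hc⟩ := cmpB hs hlaw a x (δ * Phi x / m) (show 0 < ε / 2 by positivity)
  refine ⟨N1 + N2 + N3, by omega, fun N hN α => ?_⟩
  rcases le_or_gt C (|α - round α| * N) with h | h
  · have h3 := hf N (by omega) α h _ (G.gB_same a h0 h1 (bd x N))
    have h4 := hc N (by omega)
    have h5 := EE_cmp (bal s (G.LS a x) (δ * Phi x / m)) (G.gB a (δ * Phi x / m) (bd x N)) N α
    linarith
  · rw [EE_abs]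
    apply hs' N (by omega)
    rw [abs_abs]
    exact h.le

end GF

end Pool.Agent.Q179.DV
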