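import Pool.Agent.Results.MP_d02c56_nt.WaringProblem

/-! Waring's problem with one summand in a set whose balanced indicator function has small Fourier
coefficients (the arguments of `MP_d02c56_nt.WaringProblem` for one set instead of the invariant sets). -/

set_option autoImplicit false

namespace Pool.Agent.Q179.DV

open Finset Filter Topology
open Pool.Agent.Y834.CD
open Pool.Agent.Results.MP_d02c56_nt.WaringProblem (energy Spread reps vals polyReps energy_eq reps_eq poly_spread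
  eval_bound polyReps_finite)

/-- small Fourier coefficients -/
def FUs (s : ℤ) (S : Set ℤ) (δ : ℝ) : Prop := ∀ ε : ℝ, 0 < ε → ∃ N₀ : ℕ, ∀ N : ℕ, N₀ ≤ N → ∀ α : ℝ,
  ‖es (fun n => S.indicator (fun _ => (1 : ℝ)) (s * n)) δ N α‖ ≤ ε * N

theorem generalW {s : ℤ} {S : Set ℤ} {δ : ℝ} (hF : FUs s S δ) (r t B : ℕ) (ht : 1 ≤ t) (K : ℝ) {ε : ℝ} (hε : 0 < ε) :
    ∃ N₀ : ℕ, ∀ N : ℕ, N₀ ≤ N → ∀ (L : Fin r → ℕ) (a : ∀ j, Fin (L j) → ℤ), (∀ j i, |a j i| ≤ N) →
      ∀ J : Finset (Fin r), 2 * t ≤ J.card → (∀ j ∈ J, Spread t K N (a j)) →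
      ∀ n : ℤ, |n| ≤ B * N →
        |(reps s S n a : ℝ) - δ * reps s Set.univ n a| ≤ ε * ∏ j, (L j : ℝ) := by
  set K' : ℝ := max K 0 with hK'
  have hK0 : 0 ≤ K' := le_max_right _ _
  set w : ℝ := ((B + r + t : ℕ) : ℝ) with hw
  have hw0 : 0 < w := by rw [hw]; exact_mod_cast (by omega : 0 < B + r + t)
  have hrK : (0 : ℝ) ≤ r * K' := mul_nonneg (Nat.cast_nonneg _) hK0
  set ε₁ : ℝ := ε / (w * (r * K' + 1)) with hε₁
  have hε₁0 : 0 < ε₁ := by rw [hε₁]; positivity
  obtain ⟨N₀, h⟩ := hF ε₁ hε₁0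
  refine ⟨N₀ + 1, fun N hN L a ha J hJ hsp n hn => ?_⟩
  have hN0 : (0 : ℝ) < N := by exact_mod_cast (by omega : 0 < N)
  rw [reps_eq]
  have h1 := Pool.Agent.Q49.WA.finite_waring (K := K') (E := ε₁ * w) ht (by omega : 0 < N) hK0
    (fun n => S.indicator (fun _ => (1 : ℝ)) (s * n)) δ (fun α => by
      have h2 := h ((B + r + t) * N) (by nlinarith) α
      refine h2.trans (le_of_eq ?_)
      rw [hw]; push_cast; ring) a ha hJ (fun j hj => by
      have h3 := hsp j hj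
      unfold Spread at h3
      rw [energy_eq, le_div_iff₀ hN0] at h3
      refine h3.trans (mul_le_mul_of_nonneg_right (le_max_left _ _) (by positivity))) n hn
  refine h1.trans ?_
  apply mul_le_mul_of_nonneg_right _ (prod_nonneg fun j _ => Nat.cast_nonneg _)
  calc ε₁ * w * (r * K') = ε * ((r * K') / (r * K' + 1)) := by rw [hε₁]; field_simp
    _ ≤ ε * 1 := by
        apply mul_le_mul_of_nonneg_left _ hε.le
        rw [div_le_one (by positivity)]
        linarith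
    _ = ε := mul_one _

theorem polynomialsW (F : Finset (Polynomial ℤ)) (hF : ∀ P ∈ F, 1 ≤ P.natDegree) : ∃ r₀ : ℕ, ∀ r : ℕ, r₀ ≤ r →
    ∀ (s : ℤ) (S : Set ℤ) (δ : ℝ), FUs s S δ → ∀ (B : ℕ) (ε : ℝ), 0 < ε → ∃ N₀ : ℕ,
    ∀ N : ℕ, N₀ ≤ N → ∀ P : Fin r → Polynomial ℤ, (∀ j, P j ∈ F) →
    ∀ L : Fin r → ℕ, (∀ j, ∀ m : ℕ, 1 ≤ m → m ≤ L j → |(P j).eval (m : ℤ)| ≤ N) →
    (∀ j, N ≤ B * L j ^ (P j).natDegree) → ∀ n : ℤ, |n| ≤ B * N →
      |(reps s S n (fun j => vals (P j) (L j)) : ℝ) - δ * reps s Set.univ n (fun j => vals (P j) (L j))| ≤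
        ε * ∏ j, (L j : ℝ) := by
  classical
  choose! t₀ K hK H using fun (P : Polynomial ℤ) (hP : P ∈ F) => poly_spread P (hF P hP)
  set t : ℕ := ∑ P ∈ F, t₀ P + 1 with ht
  refine ⟨2 * t, fun r hr s S δ hS B ε hε => ?_⟩
  obtain ⟨N₀, h⟩ := generalW hS r t B (by omega) (∑ P ∈ F, K P * B) hε
  refine ⟨N₀ + 1, fun N hN P hP L hL hNL n hn => ?_⟩
  apply h N (by omega) L _ (fun j i => hL j _ (by omega) (by have := i.2; omega)) univ
    (by rw [card_univ, Fintype.card_fin]; exact hr) _ n hn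
  intro j _
  have h1 : t₀ (P j) ≤ t := by
    have := single_le_sum (f := t₀) (fun _ _ => Nat.zero_le _) (hP j)
    omega
  have h2 := H (P j) (hP j) t h1 B (L j) N (by omega) (hNL j)
  unfold Spread at h2 ⊢
  refine h2.trans ?_
  apply div_le_div_of_nonneg_right _ (Nat.cast_nonneg _)
  apply mul_le_mul_of_nonneg_right _ (by positivity)
  exact single_le_sum (f := fun P => K P * B) (fun P hP => mul_nonneg (hK P hP).le (Nat.cast_nonneg _)) (hP j)

/-- every large integer -/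
theorem everyW {P : Polynomial ℤ} (hP : 1 ≤ P.natDegree) : ∃ r₀ : ℕ, 1 ≤ r₀ ∧ ∀ r : ℕ, r₀ ≤ r →
    ∀ (s : ℤ) (S : Set ℤ) (δ : ℝ), 0 < δ → FUs s S δ → ∃ κ : ℝ, 0 < κ ∧
    ∃ n₀ : ℕ, ∀ n : ℕ, n₀ ≤ n → κ * (n : ℝ) ^ ((r : ℝ) / P.natDegree) ≤ polyReps s S n P r := by
  classical
  obtain ⟨r₀, H⟩ := polynomialsW {P} (by intro Q hQ; rw [mem_singleton] at hQ; rw [hQ]; exact hP)
  refine ⟨r₀ + 1, by omega, fun r hr s S δ hδ hS => ?_⟩
  obtain ⟨c, hc, hcP⟩ := eval_bound P
  set d := P.natDegree with hd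
  set q : ℕ := 2 * r * c with hq
  have hr1 : 1 ≤ r := by omega
  have hq2 : 1 ≤ q := by rw [hq]; exact Nat.mul_pos (by omega) hc
  set B : ℕ := q * 2 ^ d with hB
  have hB1 : 1 ≤ B := Nat.mul_pos hq2 (by positivity)
  have hBR : (0 : ℝ) < B := by exact_mod_cast hB1
  obtain ⟨N₀, h⟩ := H r (by omega) s S δ hS B (δ / 2) (by positivity)
  refine ⟨δ / 2 * (1 / (B : ℝ)) ^ ((r : ℝ) / d), by positivity, N₀ + q + 1, fun n hn => ?_⟩
  have hnpos : 0 < n := by omega
  -- the length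
  set L : ℕ := Nat.findGreatest (fun L => q * L ^ d ≤ n) n with hL
  have hL1 : q * L ^ d ≤ n := by
    have : (fun L => q * L ^ d ≤ n) 1 := by simp only [one_pow, mul_one]; omega
    exact Nat.findGreatest_spec (P := fun L => q * L ^ d ≤ n) (by omega : 1 ≤ n) this
  have hLge : 1 ≤ L := by
    have : (fun L => q * L ^ d ≤ n) 1 := by simp only [one_pow, mul_one]; omega
    exact Nat.le_findGreatest (by omega : 1 ≤ n) this
  have hL2 : n < q * (L + 1) ^ d := by
    by_contra hcon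
    rw [not_lt] at hcon
    have h1 : L + 1 ≤ n := by
      calc L + 1 ≤ (L + 1) ^ d := Nat.le_self_pow (by omega) _
        _ ≤ q * (L + 1) ^ d := Nat.le_mul_of_pos_left _ hq2
        _ ≤ n := hcon
    have h2 := Nat.le_findGreatest (P := fun L => q * L ^ d ≤ n) h1 hcon
    rw [← hL] at h2
    omega
  have hL3 : n ≤ B * L ^ d := by
    calc n ≤ q * (L + 1) ^ d := hL2.le
      _ ≤ q * (2 * L) ^ d := Nat.mul_le_mul le_rfl (Nat.pow_le_pow_left (by omega) _)
      _ = _ := by rw [hB, mul_pow]; ring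
  have hval : ∀ m : ℕ, 1 ≤ m → m ≤ L → 2 * (r : ℤ) * |P.eval (m : ℤ)| ≤ n := by
    intro m hm hmL
    have h1 := hcP m hm
    have h2 : (c : ℤ) * (m : ℤ) ^ d ≤ c * (L : ℤ) ^ d := by
      apply mul_le_mul_of_nonneg_left _ (by positivity)
      exact pow_le_pow_left₀ (by positivity) (by exact_mod_cast hmL) _
    calc 2 * (r : ℤ) * |P.eval (m : ℤ)| ≤ 2 * (r : ℤ) * (c * (L : ℤ) ^ d) :=
          mul_le_mul_of_nonneg_left (h1.trans h2) (by positivity)
      _ = ((q * L ^ d : ℕ) : ℤ) := by rw [hq]; push_cast; ring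
      _ ≤ n := by exact_mod_cast hL1
  have hval1 : ∀ m : ℕ, 1 ≤ m → m ≤ L → |P.eval (m : ℤ)| ≤ n := by
    intro m hm hmL
    have h1 := hval m hm hmL
    have h2 : (1 : ℤ) ≤ r := by exact_mod_cast hr1
    nlinarith [abs_nonneg (P.eval (m : ℤ))]
  have h1 := h n (by omega) (fun _ => P) (fun _ => mem_singleton_self P) (fun _ => L) (fun _ m hm hmL => hval1 m hm hmL)
    (fun _ => hL3) n (by
      rw [abs_of_nonneg (Nat.cast_nonneg _)]
      exact_mod_cast Nat.le_mul_of_pos_left _ hB1)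
  simp only [prod_const, card_univ, Fintype.card_fin] at h1
  -- all choices give positive differences
  have hpos : ∀ v : Fin r → Fin L, 0 < (n : ℤ) - ∑ j, vals P L (v j) := by
    intro v
    have e1 : 2 * ∑ j, vals P L (v j) ≤ n := by
      have e2 : ∀ j, 2 * (r : ℤ) * vals P L (v j) ≤ n := by
        intro j
        have e3 := hval ((v j : ℕ) + 1) (by omega) (by have := (v j).2; omega)
        have e4 := le_abs_self (P.eval (((v j : ℕ) + 1 : ℕ) : ℤ))
        unfold vals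
        nlinarith [e4, (by exact_mod_cast hr1 : (1 : ℤ) ≤ r)]
      have e5 : 2 * (r : ℤ) * ∑ j, vals P L (v j) ≤ r * n := by
        rw [mul_sum]
        calc _ ≤ ∑ _j : Fin r, (n : ℤ) := sum_le_sum fun j _ => e2 j
          _ = r * n := by simp
      have e6 : (0 : ℤ) < r := by exact_mod_cast hr1
      have e7 : (r : ℤ) * (2 * ∑ j, vals P L (v j)) ≤ r * n := by linarith
      exact le_of_mul_le_mul_left e7 e6
    have : (0 : ℤ) < n := by exact_mod_cast hnpos
    linarith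
  have hall : (reps s Set.univ (n : ℤ) (fun _ : Fin r => vals P L) : ℝ) = (L : ℝ) ^ r := by
    unfold reps
    have : {v : ∀ _j : Fin r, Fin L | 0 < (n : ℤ) - ∑ j, vals P L (v j) ∧
        s * ((n : ℤ) - ∑ j, vals P L (v j)) ∈ Set.univ} = Set.univ := by
      ext v
      simp only [Set.mem_ofPred_eq, Set.mem_univ, and_true, iff_true]
      exact hpos v
    rw [this, Set.ncard_univ, Nat.card_eq_fintype_card, Fintype.card_fun, Fintype.card_fin, Fintype.card_fin]
    push_cast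
    rfl
  rw [hall] at h1
  have h2 := (abs_le.1 h1).1
  have h3 : δ / 2 * (L : ℝ) ^ r ≤ reps s S (n : ℤ) (fun _ : Fin r => vals P L) := by linarith
  have h4 : reps s S (n : ℤ) (fun _ : Fin r => vals P L) ≤ polyReps s S n P r := by
    unfold reps polyReps
    have hinj : Function.Injective (fun (v : Fin r → Fin L) (j : Fin r) => (v j : ℕ) + 1) := by
      intro v w hvw
      funext j
      have := congrFun hvw j
      simp only [Nat.add_right_cancel_iff] at this
      exact Fin.ext this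
    rw [← Set.ncard_image_of_injective _ hinj]
    apply Set.ncard_le_ncard _ (polyReps_finite s S n P hP r)
    rintro m ⟨v, ⟨hv1, hv2⟩, rfl⟩
    exact ⟨fun j => ⟨Nat.le_add_left 1 _, hval1 ((v j : ℕ) + 1) (Nat.le_add_left 1 _) (v j).2⟩, hv1, hv2⟩
  have h5 : (reps s S (n : ℤ) (fun _ : Fin r => vals P L) : ℝ) ≤ polyReps s S n P r := by exact_mod_cast h4
  refine le_trans ?_ (h3.trans h5)
  rw [mul_assoc]
  apply mul_le_mul_of_nonneg_left _ (by positivity)
  rw [← Real.mul_rpow (by positivity) (Nat.cast_nonneg _)]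
  have hd0 : (0 : ℝ) < d := by exact_mod_cast hP
  calc (1 / (B : ℝ) * n) ^ ((r : ℝ) / d) ≤ ((L : ℝ) ^ (d : ℝ)) ^ ((r : ℝ) / d) := by
        apply Real.rpow_le_rpow (by positivity) _ (by positivity)
        rw [Real.rpow_natCast, one_div, inv_mul_le_iff₀ hBR]
        exact_mod_cast hL3
    _ = (L : ℝ) ^ r := by
        rw [← Real.rpow_mul (Nat.cast_nonneg _), mul_div_cancel₀ _ hd0.ne', Real.rpow_natCast]

end Pool.Agent.Q179.DV
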